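import Pool.Agent.H42.BH.Dom

/-!
# Closed one-sided spans of matrices and isometric transport
-/

open scoped Matrix Topology
open Filter

namespace Pool.Agent.H42.BH

set_option linter.unusedSectionVars false
set_option linter.style.haveILetI false

variable {A : Type} [CStarAlgebra A]
variable {l m n p q k : Type} [Fintype l] [Fintype m] [Fintype n] [Fintype p] [Fintype q]
  [Fintype k]

/-- closed right span of the columns of `U` -/
def RCl (U : Matrix m n A) (T : Matrix m p A) : Prop :=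
  T ∈ closure (Set.range fun Y : Matrix n p A => U * Y)

/-- closed left span of the rows of `U` -/
def LCl (U : Matrix m n A) (T : Matrix p n A) : Prop :=
  T ∈ closure (Set.range fun X : Matrix p m A => X * U)

/-- closed two-sided span of `U` (one term) -/
def Cz (U : Matrix m n A) (T : Matrix p q A) : Prop :=
  T ∈ closure {M : Matrix p q A | ∃ (X : Matrix p m A) (Y : Matrix n q A), X * U * Y = M}

theorem RCl.mul (U : Matrix m n A) (Y : Matrix n p A) : RCl U (U * Y) :=
  subset_closure ⟨Y, rfl⟩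

theorem RCl.refl (U : Matrix m n A) : RCl U U := by
  classical
  have := RCl.mul U (1 : Matrix n n A)
  rwa [Matrix.mul_one] at this

theorem RCl.trans {U : Matrix m n A} {V : Matrix m p A} {T : Matrix m q A}
    (h1 : RCl U V) (h2 : RCl V T) : RCl U T := by
  refine closure_minimal ?_ isClosed_closure h2
  rintro _ ⟨Y, rfl⟩
  refine map_mem_closure (f := fun M : Matrix m p A => M * Y) (by fun_prop) h1 ?_
  rintro _ ⟨Y', rfl⟩
  exact ⟨Y' * Y, (Matrix.mul_assoc _ _ _).symm⟩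

theorem RCl.mul_right {U : Matrix m n A} {T : Matrix m p A} (h : RCl U T) (Y : Matrix p q A) :
    RCl U (T * Y) := h.trans (RCl.mul T Y)

theorem RCl.of_mul {U : Matrix m n A} {Y : Matrix n p A} {T : Matrix m q A}
    (h : RCl (U * Y) T) : RCl U T := (RCl.mul U Y).trans h

theorem RCl.mul_left {U : Matrix m n A} {T : Matrix m p A} (h : RCl U T) (X : Matrix q m A) :
    RCl (X * U) (X * T) := by
  refine map_mem_closure (f := fun M : Matrix m p A => X * M) (by fun_prop) h ?_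
  rintro _ ⟨Y', rfl⟩
  exact ⟨Y', (Matrix.mul_assoc _ _ _)⟩

theorem RCl.add {U : Matrix m n A} {T T' : Matrix m p A} (h : RCl U T) (h' : RCl U T') :
    RCl U (T + T') := by
  refine map_mem_closure₂ (f := fun M N : Matrix m p A => M + N) (by fun_prop) h h' ?_
  rintro _ ⟨Y, rfl⟩ _ ⟨Y', rfl⟩
  exact ⟨Y + Y', Matrix.mul_add _ _ _⟩

theorem RCl.neg {U : Matrix m n A} {T : Matrix m p A} (h : RCl U T) : RCl U (-T) := by
  refine map_mem_closure (f := fun M : Matrix m p A => -M) (by fun_prop) h ?_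
  rintro _ ⟨Y', rfl⟩
  exact ⟨-Y', Matrix.mul_neg _ _⟩

theorem RCl.sub {U : Matrix m n A} {T T' : Matrix m p A} (h : RCl U T) (h' : RCl U T') :
    RCl U (T - T') := by
  rw [sub_eq_add_neg]; exact h.add h'.neg

theorem RCl.zero (U : Matrix m n A) : RCl U (0 : Matrix m p A) := by
  have := RCl.mul U (0 : Matrix n p A)
  rwa [Matrix.mul_zero] at this

/-- pass to limits -/
theorem RCl.of_tendsto {U : Matrix m n A} {T : Matrix m p A} {f : ℕ → Matrix m p A}
    (hf : Tendsto f atTop (𝓝 T)) (h : ∀ i, RCl U (f i)) : RCl U T :=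
  isClosed_closure.mem_of_tendsto hf (Eventually.of_forall h)

theorem RCl.exists_seq {U : Matrix m n A} {T : Matrix m p A} (h : RCl U T) :
    ∃ Y : ℕ → Matrix n p A, Tendsto (fun i => U * Y i) atTop (𝓝 T) := by
  letI := CStarAlgebra.spectralOrder A
  letI := CStarAlgebra.spectralOrderedRing A
  have h2 : (toC T) ∈ closure (Set.range fun Y : Matrix n p A => toC (U * Y)) := h
  obtain ⟨x, hx, hlim⟩ := mem_closure_iff_seq_limit.mp h2
  choose Y hY using hx
  refine ⟨Y, ?_⟩
  have : (fun i => toC (U * Y i)) = x := funext hY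
  have h3 : Tendsto (fun i => toC (U * Y i)) atTop (𝓝 (toC T)) := by rw [this]; exact hlim
  exact h3

theorem LCl.conj {U : Matrix m n A} {T : Matrix p n A} (h : LCl U T) : RCl Uᴴ Tᴴ := by
  refine map_mem_closure (f := fun M : Matrix p n A => Mᴴ) (by fun_prop) h ?_
  rintro _ ⟨X, rfl⟩
  exact ⟨Xᴴ, (Matrix.conjTranspose_mul _ _).symm⟩

theorem RCl.conj {U : Matrix m n A} {T : Matrix m p A} (h : RCl U T) : LCl Uᴴ Tᴴ := by
  refine map_mem_closure (f := fun M : Matrix m p A => Mᴴ) (by fun_prop) h ?_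
  rintro _ ⟨X, rfl⟩
  exact ⟨Xᴴ, (Matrix.conjTranspose_mul _ _).symm⟩

theorem LCl.mul (U : Matrix m n A) (X : Matrix p m A) : LCl U (X * U) :=
  subset_closure ⟨X, rfl⟩

theorem LCl.trans {U : Matrix m n A} {V : Matrix p n A} {T : Matrix q n A}
    (h1 : LCl U V) (h2 : LCl V T) : LCl U T := by
  refine closure_minimal ?_ isClosed_closure h2
  rintro _ ⟨Y, rfl⟩
  refine map_mem_closure (f := fun M : Matrix p n A => Y * M) (by fun_prop) h1 ?_
  rintro _ ⟨Y', rfl⟩
  exact ⟨Y * Y', (Matrix.mul_assoc _ _ _)⟩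

theorem LCl.mul_right {U : Matrix m n A} {T : Matrix p n A} (h : LCl U T) (Y : Matrix n q A) :
    LCl (U * Y) (T * Y) := by
  refine map_mem_closure (f := fun M : Matrix p n A => M * Y) (by fun_prop) h ?_
  rintro _ ⟨Y', rfl⟩
  exact ⟨Y', (Matrix.mul_assoc _ _ _).symm⟩

theorem Cz.trans {U : Matrix m n A} {V : Matrix p q A} {T : Matrix k l A}
    (h1 : Cz U V) (h2 : Cz V T) : Cz U T := by
  refine closure_minimal ?_ isClosed_closure h2
  rintro _ ⟨X, Y, rfl⟩
  refine map_mem_closure (f := fun M : Matrix p q A => X * M * Y) (by fun_prop) h1 ?_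
  rintro _ ⟨X', Y', rfl⟩
  refine ⟨X * X', Y' * Y, ?_⟩
  simp only [Matrix.mul_assoc]

theorem RCl.cz {U : Matrix m n A} {T : Matrix m p A} (h : RCl U T) : Cz U T := by
  classical
  refine closure_mono ?_ h
  rintro _ ⟨Y, rfl⟩
  exact ⟨1, Y, by rw [Matrix.one_mul]⟩

theorem LCl.cz {U : Matrix m n A} {T : Matrix p n A} (h : LCl U T) : Cz U T := by
  classical
  refine closure_mono ?_ h
  rintro _ ⟨Y, rfl⟩
  exact ⟨Y, 1, by rw [Matrix.mul_one]⟩

/-- `T` is in the closed left span of `Tᴴ T`. -/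
theorem lcl_self (T : Matrix m n A) : LCl (Tᴴ * T) T := by
  letI := CStarAlgebra.spectralOrder A
  letI := CStarAlgebra.spectralOrderedRing A
  exact dom_mem_closure T T le_rfl

/-- `T` is in the closed right span of `T Tᴴ`. -/
theorem rcl_self (T : Matrix m n A) : RCl (T * Tᴴ) T := by
  have := (lcl_self Tᴴ).conj
  simpa using this

/-- Isometric transport: the map `U Y ↦ W Y` extends to closed spans. -/
theorem iso_transport {U : Matrix m n A} {W : Matrix p n A} (hUW : Wᴴ * W = Uᴴ * U)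
    {Z : Matrix m q A} (hZ : RCl U Z) : ∃ Z' : Matrix p q A, RCl W Z' ∧ Z'ᴴ * Z' = Zᴴ * Z := by
  letI := CStarAlgebra.spectralOrder A
  letI := CStarAlgebra.spectralOrderedRing A
  obtain ⟨Y, hY⟩ := hZ.exists_seq
  have hdist : ∀ i j, dist (toC (W * Y i)) (toC (W * Y j)) = dist (toC (U * Y i)) (toC (U * Y j)) := by
    intro i j
    rw [dist_eq_norm, dist_eq_norm]
    have h1 : ∀ {r : Type} [Fintype r] (V : Matrix r n A),
        ‖toC (V * Y i) - toC (V * Y j)‖ ^ 2 = ‖toC ((Y i - Y j)ᴴ * (Vᴴ * V) * (Y i - Y j))‖ := by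
      intro r _ V
      have : toC (V * Y i) - toC (V * Y j) = toC (V * (Y i - Y j)) := by
        rw [Matrix.mul_sub]; rfl
      rw [this, norm_sq_toC, Matrix.conjTranspose_mul]
      simp only [Matrix.mul_assoc]
    have h2 := h1 W
    rw [hUW, ← h1 U] at h2
    exact (sq_eq_sq₀ (norm_nonneg _) (norm_nonneg _)).mp h2
  have hcU : CauchySeq (fun i => toC (U * Y i)) := (show Tendsto (fun i => toC (U * Y i)) atTop
    (𝓝 (toC Z)) from hY).cauchySeq
  have hcW : CauchySeq (fun i => toC (W * Y i)) := by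
    rw [Metric.cauchySeq_iff'] at hcU ⊢
    simpa only [hdist] using hcU
  obtain ⟨Z', hZ'⟩ := cauchySeq_tendsto_of_complete hcW
  have hZ2 : Tendsto (fun i => W * Y i) atTop (𝓝 (CStarMatrix.ofMatrix.symm Z')) := hZ'
  refine ⟨CStarMatrix.ofMatrix.symm Z', RCl.of_tendsto hZ2 fun i => RCl.mul _ _, ?_⟩
  have e1 : Tendsto (fun i => (W * Y i)ᴴ * (W * Y i)) atTop
      (𝓝 ((CStarMatrix.ofMatrix.symm Z')ᴴ * (CStarMatrix.ofMatrix.symm Z'))) :=
    ((by fun_prop : Continuous fun M : Matrix p q A => Mᴴ * M).tendsto _).comp hZ2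
  have e2 : Tendsto (fun i => (U * Y i)ᴴ * (U * Y i)) atTop (𝓝 (Zᴴ * Z)) :=
    ((by fun_prop : Continuous fun M : Matrix m q A => Mᴴ * M).tendsto _).comp hY
  have e3 : (fun i => (W * Y i)ᴴ * (W * Y i)) = (fun i => (U * Y i)ᴴ * (U * Y i)) := by
    funext i
    rw [Matrix.conjTranspose_mul, Matrix.conjTranspose_mul, Matrix.mul_assoc, Matrix.mul_assoc,
      ← Matrix.mul_assoc Wᴴ, ← Matrix.mul_assoc Uᴴ, hUW]
  rw [e3] at e1
  exact tendsto_nhds_unique e1 e2

/-- Domination: `Gᴴ G ≤ Wᴴ W` gives `Z` in the closed right span of `W` with `Zᴴ Z = Gᴴ G`. -/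
theorem dom_transport [PartialOrder A] [StarOrderedRing A] {G : Matrix m n A} {W : Matrix p n A}
    (h : toC (Gᴴ * G) ≤ toC (Wᴴ * W)) : ∃ Z : Matrix p n A, RCl W Z ∧ Zᴴ * Z = Gᴴ * G := by
  obtain ⟨S, hS, hS2⟩ := exists_sqrt (nonneg_rect W)
  obtain ⟨H, hH, hH2⟩ := exists_sqrt (nonneg_rect G)
  have h1 : H ∈ closure (Set.range fun X : Matrix n n A => X * (Sᴴ * S)) := by
    apply dom_mem_closure
    rw [hS, hS2, hH, hH2]; exact h
  have h2 : LCl S H := by
    refine closure_mono ?_ h1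
    rintro _ ⟨X, rfl⟩
    exact ⟨X * Sᴴ, (Matrix.mul_assoc _ _ _)⟩
  have h3 : RCl S H := by
    have := h2.conj
    rwa [hS, hH] at this
  obtain ⟨Z, hZ, hZ2⟩ := iso_transport (W := W) (U := S) (by rw [hS, hS2]) h3
  exact ⟨Z, hZ, by rw [hZ2, hH, hH2]⟩

end Pool.Agent.H42.BH
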