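import Pool.Agent.H42.BH.Norm

/-!
# Domination, closure and isometric transport for matrices over a C*-algebra
-/

open scoped Matrix ComplexOrder Topology NNReal
open Filter CStarMatrix

namespace Pool.Agent.H42.BH

noncomputable section

set_option linter.unusedSectionVars false

section generic

variable {B : Type} [CStarAlgebra B] [PartialOrder B] [StarOrderedRing B]

/-- The resolvent part `(e + δ)⁻¹`. -/
def rho (δ : ℝ) (e : B) : B := cfc (fun t : ℝ => (max t 0 + δ)⁻¹) e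

/-- The defect `1 - (e + δ)⁻¹ e = δ (e + δ)⁻¹`. -/
def kap (δ : ℝ) (e : B) : B := cfc (fun t : ℝ => δ * (max t 0 + δ)⁻¹) e

theorem cont_rho {δ : ℝ} (hδ : 0 < δ) : Continuous (fun t : ℝ => (max t 0 + δ)⁻¹) := by
  refine Continuous.inv₀ (by fun_prop) fun t => ?_
  have : 0 ≤ max t 0 := le_max_right _ _
  positivity

theorem spec_nonneg {e : B} (he : 0 ≤ e) {t : ℝ} (ht : t ∈ spectrum ℝ e) : 0 ≤ t :=
  spectrum_nonneg_of_nonneg he ht

theorem kap_eq {δ : ℝ} (hδ : 0 < δ) {e : B} (he : 0 ≤ e) : 1 - rho δ e * e = kap δ e := by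
  have hsa : IsSelfAdjoint e := IsSelfAdjoint.of_nonneg he
  have hc := cont_rho hδ
  have h1 : rho δ e * e = cfc (fun t : ℝ => (max t 0 + δ)⁻¹ * t) e := by
    conv_lhs => rw [rho, ← cfc_id ℝ e hsa]
    rw [cfc_id ℝ e hsa]
    rw [cfc_mul (fun t : ℝ => (max t 0 + δ)⁻¹) (fun t => t) e (hc.continuousOn) continuousOn_id,
      cfc_id' ℝ e hsa]
  rw [h1, ← cfc_const_one ℝ e hsa,
    ← cfc_sub (fun _ : ℝ => (1:ℝ)) (fun t : ℝ => (max t 0 + δ)⁻¹ * t) e continuousOn_const
      (hc.mul continuous_id).continuousOn, kap]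
  refine cfc_congr fun t ht => ?_
  have h0 := spec_nonneg he ht
  simp only [max_eq_left h0]
  have : t + δ ≠ 0 := by positivity
  field_simp
  ring

theorem kap_sa {δ : ℝ} {e : B} : IsSelfAdjoint (kap δ e) := cfc_predicate _ _

theorem norm_kap_le {δ : ℝ} (hδ : 0 < δ) {e : B} (he : 0 ≤ e) :
    ‖kap δ e * e * kap δ e‖ ≤ δ := by
  have hsa : IsSelfAdjoint e := IsSelfAdjoint.of_nonneg he
  have hc : Continuous (fun t : ℝ => δ * (max t 0 + δ)⁻¹) := continuous_const.mul (cont_rho hδ)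
  have h1 : kap δ e * e * kap δ e
      = cfc (fun t : ℝ => (δ * (max t 0 + δ)⁻¹) * t * (δ * (max t 0 + δ)⁻¹)) e := by
    rw [cfc_mul (fun t : ℝ => (δ * (max t 0 + δ)⁻¹) * t) (fun t => δ * (max t 0 + δ)⁻¹) e
      (hc.mul continuous_id).continuousOn hc.continuousOn,
      cfc_mul (fun t : ℝ => (δ * (max t 0 + δ)⁻¹)) (fun t => t) e
      hc.continuousOn continuousOn_id, cfc_id' ℝ e hsa]
    rfl
  rw [h1]
  refine norm_cfc_le hδ.le fun t ht => ?_
  have h0 := spec_nonneg he ht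
  simp only [max_eq_left h0]
  have hp : 0 < t + δ := by positivity
  have e1 : δ * (t + δ)⁻¹ * t * (δ * (t + δ)⁻¹) = δ * (δ * t / (t + δ) ^ 2) := by
    field_simp
  rw [e1, Real.norm_of_nonneg (by positivity)]
  have : δ * t / (t + δ) ^ 2 ≤ 1 := by
    rw [div_le_one (by positivity)]
    nlinarith [mul_nonneg h0 hδ.le, sq_nonneg t, sq_nonneg δ]
  nlinarith

/-- positive elements have self-adjoint (positive) square roots -/
theorem exists_sqrt_gen {b : B} (hb : 0 ≤ b) : ∃ K : B, IsSelfAdjoint K ∧ b = K * K := by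
  have hsa : IsSelfAdjoint b := IsSelfAdjoint.of_nonneg hb
  refine ⟨cfc (fun t : ℝ => √t) b, cfc_predicate _ _, ?_⟩
  have hc : Continuous (fun t : ℝ => √t) := Real.continuous_sqrt
  rw [← cfc_mul (fun t : ℝ => √t) (fun t : ℝ => √t) b hc.continuousOn hc.continuousOn]
  conv_lhs => rw [← cfc_id' ℝ b hsa]
  refine cfc_congr fun t ht => ?_
  exact (Real.mul_self_sqrt (spec_nonneg hb ht)).symm

end generic

variable {A : Type} [CStarAlgebra A] [PartialOrder A] [StarOrderedRing A]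
variable {l m n p : Type} [Fintype l] [Fintype m] [Fintype n] [Fintype p]

/-- The matrix `M`, seen in the C*-normed type. -/
abbrev toC (M : Matrix m n A) : CStarMatrix m n A := ofMatrix M

theorem toC_mul (M : Matrix l m A) (N : Matrix m n A) : toC (M * N) = toC M * toC N := rfl

/-- `Eᴴ E` is positive, also for rectangular `E`. -/
theorem nonneg_rect (E : Matrix m n A) : 0 ≤ toC (Eᴴ * E) := by
  classical
  rcases isEmpty_or_nonempty n with hn | ⟨⟨j₀⟩⟩
  · have : toC (Eᴴ * E) = 0 := by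
      ext i; exact hn.elim i
    rw [this]
  · let R : m → Matrix n n A := fun i => fun a b => if a = j₀ then E i b else 0
    have h : Eᴴ * E = ∑ i, (R i)ᴴ * R i := by
      ext b c
      rw [Matrix.mul_apply, Matrix.sum_apply]
      refine Finset.sum_congr rfl fun i _ => ?_
      rw [Matrix.mul_apply, Finset.sum_eq_single j₀]
      · rw [Matrix.conjTranspose_apply, Matrix.conjTranspose_apply]
        simp [R]
      · intro a _ ha
        simp [R, ha]
      · simp
    have h2 : toC (Eᴴ * E) = ∑ i, star (toC (R i)) * toC (R i) := by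
      rw [h]; rfl
    rw [h2]
    exact Finset.sum_nonneg fun i _ => star_mul_self_nonneg _

theorem norm_sq_toC (E : Matrix m n A) : ‖toC E‖ ^ 2 = ‖toC (Eᴴ * E)‖ := norm_sq_rect (toC E)

/-- Every positive matrix has a self-adjoint square root. -/
theorem exists_sqrt {b : Matrix n n A} (hb : 0 ≤ toC b) : ∃ K : Matrix n n A, Kᴴ = K ∧ K * K = b := by
  classical
  obtain ⟨K, hK, hK2⟩ := exists_sqrt_gen hb
  exact ⟨ofMatrix.symm K, hK.star_eq, hK2.symm⟩

theorem conj_mono (E : Matrix m n A) {h h' : Matrix m m A} (hh : toC h ≤ toC h') :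
    toC (Eᴴ * h * E) ≤ toC (Eᴴ * h' * E) := by
  rw [← sub_nonneg] at hh ⊢
  have hh2 : 0 ≤ toC (h' - h) := hh
  obtain ⟨K, hK, hK'⟩ := exists_sqrt hh2
  have : toC (Eᴴ * h' * E) - toC (Eᴴ * h * E) = toC ((K * E)ᴴ * (K * E)) := by
    change Eᴴ * h' * E - Eᴴ * h * E = (K * E)ᴴ * (K * E)
    rw [Matrix.conjTranspose_mul, hK, Matrix.mul_assoc Eᴴ K, ← Matrix.mul_assoc K K,
      hK', Matrix.sub_mul, Matrix.mul_sub, Matrix.mul_assoc, Matrix.mul_assoc]
  rw [this]
  exact nonneg_rect _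

/-- Key closure lemma: if `Gᴴ G ≤ Tᴴ T` then `G` is a limit of `X (Tᴴ T)`. -/
theorem dom_mem_closure (G : Matrix l n A) (T : Matrix m n A)
    (h : toC (Gᴴ * G) ≤ toC (Tᴴ * T)) :
    G ∈ closure (Set.range fun X : Matrix l n A => X * (Tᴴ * T)) := by
  classical
  have hcl : (toC G) ∈ closure (Set.range fun X : CStarMatrix l n A => X * toC (Tᴴ * T)) := by
    rw [Metric.mem_closure_iff]
    intro ε hε
    set e : CStarMatrix n n A := toC (Tᴴ * T) with he
    have he0 : 0 ≤ e := nonneg_rect T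
    set δ : ℝ := ε ^ 2 / 2 with hδ
    have hδ0 : 0 < δ := by positivity
    refine ⟨toC G * rho δ e * e, ⟨toC G * rho δ e, rfl⟩, ?_⟩
    rw [dist_eq_norm]
    set κ : Matrix n n A := ofMatrix.symm (kap δ e) with hκ
    have hκs : κᴴ = κ := (kap_sa (δ := δ) (e := e)).star_eq
    have hE : toC G - toC G * rho δ e * e = toC (G * κ) := by
      have h1 : (ofMatrix.symm (kap δ e) : Matrix n n A)
          = 1 - ofMatrix.symm (rho δ e) * ofMatrix.symm e := (kap_eq hδ0 he0).symm
      change G - G * ofMatrix.symm (rho δ e) * ofMatrix.symm e = G * κ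
      rw [hκ, h1, Matrix.mul_sub, Matrix.mul_one, Matrix.mul_assoc]
    rw [hE]
    have hle : toC ((G * κ)ᴴ * (G * κ)) ≤ kap δ e * e * kap δ e := by
      have h1 : toC ((G * κ)ᴴ * (G * κ)) = toC (κᴴ * (Gᴴ * G) * κ) := by
        rw [Matrix.conjTranspose_mul]
        simp only [Matrix.mul_assoc]
      have h2 : kap δ e * e * kap δ e = toC (κᴴ * (Tᴴ * T) * κ) := by
        rw [hκs]; rfl
      rw [h1, h2]
      exact conj_mono κ h
    have hn : ‖toC ((G * κ)ᴴ * (G * κ))‖ ≤ δ :=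
      (CStarAlgebra.norm_le_norm_of_nonneg_of_le (nonneg_rect _) hle).trans
        (norm_kap_le hδ0 he0)
    have hsq : ‖toC (G * κ)‖ ^ 2 ≤ δ := by rw [norm_sq_toC]; exact hn
    have : ‖toC (G * κ)‖ ^ 2 < ε ^ 2 := by
      have : 0 < ε ^ 2 := by positivity
      linarith
    exact lt_of_pow_lt_pow_left₀ 2 hε.le this
  exact hcl

end

end Pool.Agent.H42.BH
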