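import Pool.Agent.H42.BH.Pos

/-!
# Isometric embeddings of singly generated Hilbert modules, and coherent functions
-/

open scoped Matrix Topology
open Filter Matrix

namespace Pool.Agent.H42.BH

set_option linter.unusedSectionVars false
set_option linter.style.haveILetI false

variable {A : Type} [CStarAlgebra A]
variable {k l m n p q m' n' k' l' : Type} [Fintype k] [Fintype l] [Fintype m] [Fintype n]
  [Fintype m'] [Fintype n'] [Fintype k'] [Fintype l'] [Fintype p] [Fintype q]

/-- direct sum -/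
abbrev ds (T : Matrix m n A) (U : Matrix m' n' A) : Matrix (m ⊕ m') (n ⊕ n') A :=
  fromBlocks T 0 0 U

/-- the module of `T` embeds isometrically into the module of `U` -/
def Emb (T : Matrix m n A) (U : Matrix m' n' A) : Prop :=
  ∃ Z : Matrix m' n A, RCl U Z ∧ Zᴴ * Z = Tᴴ * T

theorem Emb.of_rcl {U : Matrix m n A} {T : Matrix m n' A} (h : RCl U T) : Emb T U :=
  ⟨T, h, rfl⟩

theorem Emb.refl (T : Matrix m n A) : Emb T T := Emb.of_rcl (RCl.refl T)

theorem Emb.trans {T : Matrix m n A} {U : Matrix m' n' A} {V : Matrix k l A} (h1 : Emb T U)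
    (h2 : Emb U V) : Emb T V := by
  obtain ⟨Z, hZ, hZ2⟩ := h1
  obtain ⟨W, hW, hW2⟩ := h2
  obtain ⟨Z', hZ', hZ'2⟩ := iso_transport hW2 hZ
  exact ⟨Z', hW.trans hZ', by rw [hZ'2, hZ2]⟩

theorem RCl.dsum {U : Matrix m n A} {Z : Matrix m k A} {U' : Matrix m' n' A} {Z' : Matrix m' k' A}
    (h : RCl U Z) (h' : RCl U' Z') : RCl (ds U U') (ds Z Z') := by
  refine map_mem_closure₂ (f := fun (M : Matrix m k A) (N : Matrix m' k' A) =>
    (fromBlocks M 0 0 N : Matrix (m ⊕ m') (k ⊕ k') A)) (by fun_prop) h h' ?_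
  rintro _ ⟨Y, rfl⟩ _ ⟨Y', rfl⟩
  refine ⟨fromBlocks Y 0 0 Y', ?_⟩
  change (fromBlocks U 0 0 U' : Matrix (m ⊕ m') (n ⊕ n') A) * fromBlocks Y 0 0 Y' = _
  rw [fromBlocks_multiply]; simp

theorem ds_star_mul (T : Matrix m n A) (T' : Matrix m' n' A) :
    (ds T T')ᴴ * (ds T T') = ds (Tᴴ * T) (T'ᴴ * T') := by
  rw [ds, ds, fromBlocks_conjTranspose, fromBlocks_multiply]; simp

theorem Emb.dsum {T : Matrix m n A} {U : Matrix k l A} {T' : Matrix m' n' A} {U' : Matrix k' l' A}
    (h : Emb T U) (h' : Emb T' U') : Emb (ds T T') (ds U U') := by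
  obtain ⟨Z, hZ, hZ2⟩ := h
  obtain ⟨Z', hZ', hZ'2⟩ := h'
  exact ⟨_, hZ.dsum hZ', by rw [ds_star_mul, ds_star_mul, hZ2, hZ'2]⟩

theorem Emb.submatrix (T : Matrix m n A) (e : m' ≃ m) (f : n' → n) :
    Emb (T.submatrix e f) T := by
  classical
  refine ⟨T.submatrix id f, ?_, ?_⟩
  · have : T.submatrix id f = T * (1 : Matrix n n A).submatrix id f := by
      ext i j
      simp [Matrix.mul_apply, Matrix.one_apply]
    rw [this]; exact RCl.mul _ _
  · ext i j
    simp only [Matrix.mul_apply, conjTranspose_apply, submatrix_apply, id]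
    exact (Equiv.sum_comp e fun x => star (T x (f i)) * T x (f j)).symm

theorem Emb.of_submatrix {T : Matrix m n A} {U : Matrix m' n' A} (e : m' ≃ m) (f : n' → n)
    (h : U = T.submatrix e f) : Emb U T := h ▸ Emb.submatrix T e f

theorem Emb.comm (T : Matrix m n A) (U : Matrix m' n' A) : Emb (ds T U) (ds U T) := by
  refine Emb.of_submatrix (Equiv.sumComm _ _) (Equiv.sumComm _ _) ?_
  ext i j
  rcases i with i | i <;> rcases j with j | j <;> simp

theorem Emb.assoc (T : Matrix m n A) (U : Matrix m' n' A) (V : Matrix k l A) :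
    Emb (ds (ds T U) V) (ds T (ds U V)) := by
  refine Emb.of_submatrix (Equiv.sumAssoc _ _ _) (Equiv.sumAssoc _ _ _) ?_
  ext i j
  rcases i with (i | i) | i <;> rcases j with (j | j) | j <;> simp

theorem Emb.assoc' (T : Matrix m n A) (U : Matrix m' n' A) (V : Matrix k l A) :
    Emb (ds T (ds U V)) (ds (ds T U) V) := by
  refine Emb.of_submatrix (Equiv.sumAssoc _ _ _).symm (Equiv.sumAssoc _ _ _).symm ?_
  ext i j
  rcases i with i | (i | i) <;> rcases j with j | (j | j) <;> simp

/-- `e ⊕ (x ⊕ (s ⊕ c))` embeds in `(s ⊕ e) ⊕ (c ⊕ x)` -/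
theorem Emb.perm {me ne mx nx ms ns mc nc : Type} [Fintype me] [Fintype ne] [Fintype mx]
    [Fintype nx] [Fintype ms] [Fintype ns] [Fintype mc] [Fintype nc]
    (e : Matrix me ne A) (x : Matrix mx nx A) (s : Matrix ms ns A) (c : Matrix mc nc A) :
    Emb (ds e (ds x (ds s c))) (ds (ds s e) (ds c x)) := by
  let F : ∀ a b c d : Type, a ⊕ (b ⊕ (c ⊕ d)) ≃ (c ⊕ a) ⊕ (d ⊕ b) := fun a b c d =>
    { toFun := Sum.elim (fun i => Sum.inl (Sum.inr i)) (Sum.elim (fun i => Sum.inr (Sum.inr i))
        (Sum.elim (fun i => Sum.inl (Sum.inl i)) (fun i => Sum.inr (Sum.inl i))))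
      invFun := Sum.elim (Sum.elim (fun i => Sum.inr (Sum.inr (Sum.inl i))) (fun i => Sum.inl i))
        (Sum.elim (fun i => Sum.inr (Sum.inr (Sum.inr i))) (fun i => Sum.inr (Sum.inl i)))
      left_inv := by rintro (i | (i | (i | i))) <;> rfl
      right_inv := by rintro ((i | i) | (i | i)) <;> rfl }
  refine Emb.of_submatrix (F me mx ms mc) (F ne nx ns nc) ?_
  ext i j
  rcases i with i | (i | (i | i)) <;> rcases j with j | (j | (j | j)) <;> simp [F]

/-- `(a ⊕ b) ⊕ (c ⊕ d)` embeds in `(a ⊕ c) ⊕ (b ⊕ d)` -/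
theorem Emb.four {ma na mb nb mc nc md nd : Type} [Fintype ma] [Fintype na] [Fintype mb]
    [Fintype nb] [Fintype mc] [Fintype nc] [Fintype md] [Fintype nd]
    (a : Matrix ma na A) (b : Matrix mb nb A) (c : Matrix mc nc A) (d : Matrix md nd A) :
    Emb (ds (ds a b) (ds c d)) (ds (ds a c) (ds b d)) := by
  refine Emb.of_submatrix (Equiv.sumSumSumComm _ _ _ _) (Equiv.sumSumSumComm _ _ _ _) ?_
  ext i j
  rcases i with (i | i) | (i | i) <;> rcases j with (j | j) | (j | j) <;> simp

/-! ### N-fold sums -/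

/-- index type of the `k`-fold sum -/
def Idx (n : Type) : ℕ → Type
  | 0 => Empty
  | k + 1 => n ⊕ Idx n k

instance instFintypeIdx (n : Type) [Fintype n] : ∀ k, Fintype (Idx n k)
  | 0 => (inferInstance : Fintype Empty)
  | k + 1 => letI := instFintypeIdx n k; (inferInstance : Fintype (n ⊕ Idx n k))

/-- the `k`-fold direct sum -/
def nf (T : Matrix m n A) : ∀ k : ℕ, Matrix (Idx m k) (Idx n k) A
  | 0 => 0
  | k + 1 => ds T (nf T k)

theorem nf_succ (T : Matrix m n A) (k : ℕ) : nf T (k + 1) = ds T (nf T k) := rfl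

theorem Emb.nfold {T : Matrix m n A} {U : Matrix m' n' A} (h : Emb T U) (k : ℕ) :
    Emb (nf T k) (nf U k) := by
  induction k with
  | zero => exact Emb.refl (0 : Matrix Empty Empty A)
  | succ k ih => exact h.dsum ih

theorem nf_star_mul (T : Matrix m n A) (U : Matrix m n' A) (k : ℕ) :
    (nf T k)ᴴ * nf U k = nf (Tᴴ * U) k := by
  induction k with
  | zero => ext i; exact i.elim
  | succ k ih =>
    have : (ds T (nf T k))ᴴ * ds U (nf U k) = ds (Tᴴ * U) (nf (Tᴴ * U) k) := by
      rw [ds, ds, fromBlocks_conjTranspose, fromBlocks_multiply]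
      simp [ih]
    exact this

theorem nf_zero (k : ℕ) : nf (0 : Matrix m n A) k = 0 := by
  induction k with
  | zero => rfl
  | succ k ih =>
    have : (ds (0 : Matrix m n A) (nf (0 : Matrix m n A) k)) = 0 := by
      rw [ih, ds, fromBlocks_zero]
    exact this

theorem nf_add (T U : Matrix m n A) (k : ℕ) : nf (T + U) k = nf T k + nf U k := by
  induction k with
  | zero => ext i; exact i.elim
  | succ k ih =>
    have : (ds (T + U) (nf (T + U) k)) = ds T (nf T k) + ds U (nf U k) := by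
      rw [ds, ds, ds, fromBlocks_add, ih]; simp
    exact this

theorem nf_continuous (k : ℕ) : Continuous fun T : Matrix m n A => nf T k := by
  induction k with
  | zero => exact continuous_const
  | succ k ih =>
    have : Continuous fun T : Matrix m n A => (fromBlocks T 0 0 (nf T k)) := by fun_prop
    exact this

theorem nf_sum {ι : Type} (s : Finset ι) (f : ι → Matrix m n A) (k : ℕ) :
    nf (∑ i ∈ s, f i) k = ∑ i ∈ s, nf (f i) k := by
  classical
  induction s using Finset.induction_on with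
  | empty => simp [nf_zero]
  | insert a s ha ih => rw [Finset.sum_insert ha, Finset.sum_insert ha, nf_add, ih]

theorem IsWeak.nfold {r : RkFun A} (h : IsWeak r) (T : Matrix m n A) (k : ℕ) :
    r _ _ (nf T k) = k * r _ _ T := by
  induction k with
  | zero =>
    have := h.zero (m := Empty) (n := Empty)
    rw [Nat.cast_zero, zero_mul]
    exact this
  | succ k ih =>
    have : r _ _ (ds T (nf T k)) = (k + 1 : ℕ) * r _ _ T := by
      rw [ds, h.add, ih]; push_cast; ring
    exact this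

/-! ### The algebraic chain -/

theorem chain_aux {ms ns me ne mb nb mc nc : Type} [Fintype ms] [Fintype ns] [Fintype me]
    [Fintype ne] [Fintype mb] [Fintype nb] [Fintype mc] [Fintype nc] {s : Matrix ms ns A}
    {e : Matrix me ne A} {b : Matrix mb nb A} {c : Matrix mc nc A}
    (h1 : Emb (ds s e) b) (h2 : Emb b (ds s c)) (N : ℕ) :
    Emb (ds (nf e N) b) (ds (nf c N) b) := by
  induction N with
  | zero => exact Emb.refl (ds (0 : Matrix Empty Empty A) b)
  | succ N ih =>
    have s1 : Emb (ds (ds e (nf e N)) b) (ds e (ds (nf e N) b)) := Emb.assoc _ _ _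
    have s2 : Emb (ds e (ds (nf e N) b)) (ds e (ds (nf c N) b)) := (Emb.refl e).dsum ih
    have s3 : Emb (ds e (ds (nf c N) b)) (ds e (ds (nf c N) (ds s c))) :=
      (Emb.refl e).dsum ((Emb.refl _).dsum h2)
    have s4 : Emb (ds e (ds (nf c N) (ds s c))) (ds (ds s e) (ds c (nf c N))) := Emb.perm _ _ _ _
    have s5 : Emb (ds (ds s e) (ds c (nf c N))) (ds b (ds c (nf c N))) := h1.dsum (Emb.refl _)
    have s6 : Emb (ds b (ds c (nf c N))) (ds (ds c (nf c N)) b) := Emb.comm _ _
    exact (((((s1.trans s2).trans s3).trans s4).trans s5).trans s6)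

theorem nf_split {ma na mb nb : Type} [Fintype ma] [Fintype na] [Fintype mb] [Fintype nb]
    (y : Matrix ma na A) (c : Matrix mb nb A) (N : ℕ) :
    Emb (ds (nf y N) (nf c N)) (nf (ds y c) N) := by
  induction N with
  | zero =>
    have : Emb (ds (0 : Matrix Empty Empty A) (0 : Matrix Empty Empty A))
        (0 : Matrix Empty Empty A) := by
      refine Emb.of_submatrix ?_ (Sum.elim id id) ?_
      · exact Equiv.equivOfIsEmpty _ _
      · ext i; rcases i with i | i <;> exact i.elim
    exact this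
  | succ N ih =>
    have s1 : Emb (ds (ds y (nf y N)) (ds c (nf c N))) (ds (ds y c) (ds (nf y N) (nf c N))) :=
      Emb.four _ _ _ _
    have s2 : Emb (ds (ds y c) (ds (nf y N) (nf c N))) (ds (ds y c) (nf (ds y c) N)) :=
      (Emb.refl _).dsum ih
    exact s1.trans s2

theorem chain {ms ns my ny mb nb mc nc mc' nc' : Type} [Fintype ms] [Fintype ns] [Fintype my]
    [Fintype ny] [Fintype mb] [Fintype nb] [Fintype mc] [Fintype nc] [Fintype mc'] [Fintype nc']
    {s : Matrix ms ns A} {y : Matrix my ny A} {b : Matrix mb nb A} {c : Matrix mc nc A}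
    {c' : Matrix mc' nc' A}
    (h1 : Emb (ds s (ds y c')) b) (h2 : Emb b (ds s c)) (N : ℕ) :
    Emb (ds (nf y N) (ds (nf c' N) b)) (ds (nf c N) b) := by
  have s1 : Emb (ds (nf y N) (ds (nf c' N) b)) (ds (ds (nf y N) (nf c' N)) b) := Emb.assoc' _ _ _
  have s2 : Emb (ds (ds (nf y N) (nf c' N)) b) (ds (nf (ds y c') N) b) :=
    (nf_split y c' N).dsum (Emb.refl b)
  exact (s1.trans s2).trans (chain_aux h1 h2 N)

end Pool.Agent.H42.BH
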