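import Pool.Agent.H42.BH.Inf
import Pool.Agent.H53.DF.Swindle

/-!
# The face theorem
-/

open scoped Matrix Topology
open Filter Matrix

namespace Pool.Agent.H42.BH

set_option linter.unusedSectionVars false
set_option linter.style.haveILetI false

section generic

variable {B : Type} [CStarAlgebra B] [PartialOrder B] [StarOrderedRing B]

theorem exists_scalar_bound (b : B) : ∃ c : ℂ, c ≠ 0 ∧ star b * b ≤ star (c • (1 : B)) * (c • 1) := by
  set t : ℝ := ‖b‖ + 1 with ht
  have ht0 : 0 < t := by positivity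
  refine ⟨(t : ℂ), by exact_mod_cast ht0.ne', ?_⟩
  have h1 : star b * b ≤ algebraMap ℝ B ‖star b * b‖ :=
    (IsSelfAdjoint.star_mul_self b).le_algebraMap_norm_self
  have h2 : ‖star b * b‖ ≤ t ^ 2 := by
    rw [CStarRing.norm_star_mul_self]
    nlinarith [norm_nonneg b]
  have h3 : algebraMap ℝ B ‖star b * b‖ ≤ algebraMap ℝ B (t ^ 2) :=
    algebraMap_mono B h2
  have h4 : algebraMap ℝ B (t ^ 2) = star ((t : ℂ) • (1 : B)) * ((t : ℂ) • 1) := by
    rw [star_smul, star_one, smul_mul_smul_comm, one_mul, Algebra.algebraMap_eq_smul_one]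
    have : star (t : ℂ) * (t : ℂ) = ((t ^ 2 : ℝ) : ℂ) := by
      simp [sq]
    rw [this]
    rfl
  rw [← h4]
  exact h1.trans h3

end generic

variable {A : Type} [CStarAlgebra A]
variable {k l m n p q m' n' k' l' : Type} [Fintype k] [Fintype l] [Fintype m] [Fintype n]
  [Fintype m'] [Fintype n'] [Fintype k'] [Fintype l'] [Fintype p] [Fintype q]

/-- left multiples embed -/
theorem Emb.mul_left (X : Matrix m' m A) (U : Matrix m n A) : Emb (X * U) U := by
  classical
  letI := CStarAlgebra.spectralOrder A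
  letI := CStarAlgebra.spectralOrderedRing A
  obtain ⟨K, hK, hK2⟩ := exists_sqrt (nonneg_rect X)
  obtain ⟨c, hc, hle⟩ := exists_scalar_bound (toC K)
  have h1 : toC (Xᴴ * X) ≤ toC ((c • (1 : Matrix m m A))ᴴ * (c • 1)) := by
    rw [← hK2]
    have : toC (K * K) = star (toC K) * toC K := by
      change K * K = Kᴴ * K
      rw [hK]
    rw [this]
    exact hle
  have h2 := conj_mono U h1
  have h3 : toC ((X * U)ᴴ * (X * U)) ≤ toC ((U * (c • (1 : Matrix n n A)))ᴴ
      * (U * (c • (1 : Matrix n n A)))) := by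
    have e1 : (X * U)ᴴ * (X * U) = Uᴴ * (Xᴴ * X) * U := by
      rw [conjTranspose_mul]; simp only [Matrix.mul_assoc]
    have e2 : (U * (c • (1 : Matrix n n A)))ᴴ * (U * (c • (1 : Matrix n n A)))
        = Uᴴ * ((c • (1 : Matrix m m A))ᴴ * (c • 1)) * U := by
      simp only [Matrix.mul_smul, Matrix.mul_one, conjTranspose_smul, conjTranspose_one,
        Matrix.smul_mul]
    rw [e1, e2]
    exact h2
  obtain ⟨Z, hZ, hZ2⟩ := dom_transport h3
  exact ⟨Z, hZ.of_mul, hZ2⟩

theorem Emb.mul_mul (X : Matrix m' m A) (U : Matrix m n A) (Y : Matrix n n' A) :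
    Emb (X * U * Y) U := by
  obtain ⟨Z, hZ, hZ2⟩ := Emb.mul_left X U
  refine ⟨Z * Y, hZ.mul_right Y, ?_⟩
  rw [conjTranspose_mul, conjTranspose_mul (X * U), Matrix.mul_assoc, ← Matrix.mul_assoc Zᴴ, hZ2]
  simp only [Matrix.mul_assoc]

/-- The Cuntz relation gives approximate embeddings. -/
theorem Cz.exists_approx {U : Matrix m n A} {T : Matrix m' n' A} (h : Cz U T) :
    ∃ Z : ℕ → Matrix m n' A, (∀ i, RCl U (Z i)) ∧
      Tendsto (fun i => (Z i)ᴴ * Z i) atTop (𝓝 (Tᴴ * T)) := by
  letI := CStarAlgebra.spectralOrder A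
  letI := CStarAlgebra.spectralOrderedRing A
  have h2 : (toC T) ∈ closure {M : CStarMatrix m' n' A | ∃ (X : Matrix m' m A) (Y : Matrix n n' A),
    toC (X * U * Y) = M} := h
  obtain ⟨x, hx, hlim⟩ := mem_closure_iff_seq_limit.mp h2
  have H : ∀ i, ∃ Z : Matrix m n' A, RCl U Z ∧
      Zᴴ * Z = (CStarMatrix.ofMatrix.symm (x i))ᴴ * (CStarMatrix.ofMatrix.symm (x i)) := by
    intro i
    obtain ⟨X, Y, hXY⟩ := hx i
    obtain ⟨Z, hZ, hZ2⟩ := Emb.mul_mul X U Y
    exact ⟨Z, hZ, by rw [hZ2, ← hXY]; rfl⟩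
  choose Z hZ hZ2 using H
  refine ⟨Z, hZ, ?_⟩
  have hlim2 : Tendsto (fun i => CStarMatrix.ofMatrix.symm (x i)) atTop (𝓝 T) := hlim
  have e2 : Tendsto (fun i => (CStarMatrix.ofMatrix.symm (x i))ᴴ
      * (CStarMatrix.ofMatrix.symm (x i))) atTop (𝓝 (Tᴴ * T)) :=
    ((by fun_prop : Continuous fun M : Matrix m' n' A => Mᴴ * M).tendsto _).comp hlim2
  simpa only [hZ2] using e2

/-! ### finite block diagonal families -/

/-- block diagonal of a finite family -/
def bd {K : ℕ} (f : Fin K → Matrix m n A) : Matrix (Fin K × m) (Fin K × n) A :=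
  fun x y => if x.1 = y.1 then f x.1 x.2 y.2 else 0

/-- splitting off the first block -/
def splitEquiv (K : ℕ) (m : Type) : m ⊕ (Fin K × m) ≃ Fin (K + 1) × m where
  toFun := Sum.elim (fun a => (0, a)) (fun x => (x.1.succ, x.2))
  invFun x := Fin.cases (motive := fun _ => m ⊕ (Fin K × m)) (Sum.inl x.2)
    (fun j => Sum.inr (j, x.2)) x.1
  left_inv := by rintro (a | ⟨i, a⟩) <;> simp
  right_inv := by
    rintro ⟨i, a⟩
    refine Fin.cases ?_ (fun j => ?_) i <;> simp

theorem bd_split {K : ℕ} (f : Fin (K + 1) → Matrix m n A) :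
    (bd f).submatrix (splitEquiv K m) (splitEquiv K n) = ds (f 0) (bd fun i => f i.succ) := by
  ext i j
  rcases i with i | ⟨i, a⟩ <;> rcases j with j | ⟨j, b⟩
  · simp [bd, splitEquiv]
  · simp [bd, splitEquiv, (Fin.succ_ne_zero j).symm]
  · simp [bd, splitEquiv]
  · simp [bd, splitEquiv]

theorem IsWeak.bd {r : RkFun A} (h : IsWeak r) {K : ℕ} (f : Fin K → Matrix m n A) :
    r _ _ (bd f) = ∑ i, r _ _ (f i) := by
  induction K with
  | zero =>
    have : BH.bd f = 0 := by ext i; exact i.1.elim0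
    rw [this, h.zero]; simp
  | succ K ih =>
    rw [← h.reindex_eq (BH.bd f) (splitEquiv K m) (splitEquiv K n), bd_split, ds, h.add, ih,
      Fin.sum_univ_succ]

/-- flatten a matrix of matrices -/
def flat {ι : Type} {K : ℕ} (Y : CStarMatrix (Fin K) (Fin K) (CStarMatrix ι ι A)) :
    Matrix (Fin K × ι) (Fin K × ι) A := fun x y => Y x.1 y.1 x.2 y.2

theorem flat_star_mul {ι : Type} [Fintype ι] {K : ℕ}
    (Y : CStarMatrix (Fin K) (Fin K) (CStarMatrix ι ι A)) :
    (flat Y)ᴴ * flat Y = flat (star Y * Y) := by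
  ext ⟨j, b⟩ ⟨j', b'⟩
  rw [Matrix.mul_apply, Fintype.sum_prod_type]
  have h1 : flat (star Y * Y) (j, b) (j', b') = (∑ i, star (Y i j) * Y i j') b b' := by
    rw [flat, CStarMatrix.mul_apply]
    rfl
  have h2 : (∑ i, star (Y i j) * Y i j') b b' = ∑ i, (star (Y i j) * Y i j') b b' :=
    Matrix.sum_apply b b' Finset.univ (fun i => (star (Y i j) * Y i j' : CStarMatrix ι ι A))
  rw [h1, h2]
  refine Finset.sum_congr rfl fun i _ => ?_
  rw [CStarMatrix.mul_apply]
  refine Finset.sum_congr rfl fun a _ => ?_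
  rw [conjTranspose_apply, CStarMatrix.star_apply]
  rfl

theorem rcl_flat {ι : Type} [Fintype ι] {K : ℕ} {V : Matrix ι n A}
    (Y : CStarMatrix (Fin K) (Fin K) (CStarMatrix ι ι A))
    (hY : ∀ i j, RCl V (CStarMatrix.ofMatrix.symm (Y i j))) :
    RCl (bd fun _ : Fin K => V) (flat Y) := by
  have H : ∀ i j, ∃ z : ℕ → Matrix n ι A,
      Tendsto (fun s => V * z s) atTop (𝓝 (CStarMatrix.ofMatrix.symm (Y i j))) :=
    fun i j => (hY i j).exists_seq
  choose z hz using H
  have hlim : Tendsto (fun s => (bd fun _ : Fin K => V) *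
      (Matrix.of fun x y => z x.1 y.1 s x.2 y.2 : Matrix (Fin K × n) (Fin K × ι) A)) atTop
      (𝓝 (flat Y)) := by
    refine tendsto_pi_nhds.mpr fun x => tendsto_pi_nhds.mpr fun y => ?_
    obtain ⟨i, a⟩ := x
    obtain ⟨j, b⟩ := y
    have h1 : (fun s => ((bd fun _ : Fin K => V) *
        (Matrix.of fun x y => z x.1 y.1 s x.2 y.2 : Matrix (Fin K × n) (Fin K × ι) A)) (i, a) (j, b))
        = fun s => (V * z i j s) a b := by
      funext s
      rw [Matrix.mul_apply, Fintype.sum_prod_type, Finset.sum_eq_single i]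
      · rw [Matrix.mul_apply]
        refine Finset.sum_congr rfl fun c _ => ?_
        simp [bd]
      · intro i' _ hi'
        refine Finset.sum_eq_zero fun c _ => ?_
        simp [bd, Ne.symm hi']
      · intro h; exact absurd (Finset.mem_univ _) h
    have h3 : Tendsto (fun s => (V * z i j s) a b) atTop
        (𝓝 ((CStarMatrix.ofMatrix.symm (Y i j)) a b)) :=
      ((continuous_id.matrix_elem a b).tendsto _).comp (hz i j)
    rw [← h1] at h3
    exact h3
  exact RCl.of_tendsto hlim fun s => RCl.mul _ _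

/-- Coherent functions respect the Cuntz relation. -/
theorem IsCoh.cuntz_aux {r : RkFun A} (h : IsCoh r) {U : Matrix m n A} {T : Matrix m' n' A}
    (hUT : Cz U T) (N : ℕ) : (N + 1) * r m' n' T ≤ (N + 2) * r m n U := by
  classical
  letI := CStarAlgebra.spectralOrder A
  letI := CStarAlgebra.spectralOrderedRing A
  let V : Matrix (m ⊕ n') n A := fromRows U 0
  let S : AddSubgroup (CStarMatrix (m ⊕ n') (m ⊕ n') A) :=
    { carrier := {x | RCl V (CStarMatrix.ofMatrix.symm x)}
      zero_mem' := RCl.zero V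
      add_mem' := fun hx hy => hx.add hy
      neg_mem' := fun hx => hx.neg }
  let a₀ : Matrix (m ⊕ n') (m ⊕ n') A := fromBlocks 0 0 0 (Tᴴ * T)
  have hE : (fromCols (0 : Matrix m' m A) T)ᴴ * fromCols (0 : Matrix m' m A) T = a₀ := by
    rw [conjTranspose_fromCols_eq_fromRows_conjTranspose, fromRows_mul_fromCols]
    simp [a₀]
  have ha : 0 ≤ toC a₀ := by
    rw [← hE]; exact nonneg_rect _
  have hx : ∀ δ : ℝ, 0 < δ → ∃ x ∈ S, ‖star x * x - toC a₀‖ ≤ δ := by
    intro δ hδ
    obtain ⟨Z, hZ, hlim⟩ := hUT.exists_approx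
    have hcont : Continuous fun M : Matrix n' n' A =>
        (fromBlocks 0 0 0 M : Matrix (m ⊕ n') (m ⊕ n') A) := by fun_prop
    have h1 : Tendsto (fun i => toC (fromBlocks 0 0 0 ((Z i)ᴴ * Z i) :
        Matrix (m ⊕ n') (m ⊕ n') A)) atTop (𝓝 (toC a₀)) :=
      (hcont.tendsto (Tᴴ * T)).comp hlim
    obtain ⟨i, hi⟩ := ((Metric.tendsto_atTop.mp h1) δ hδ)
    have hi' := hi i le_rfl
    rw [dist_eq_norm] at hi'
    refine ⟨toC (fromBlocks 0 (Z i) 0 0), ?_, ?_⟩
    · have hcont2 : Continuous fun M : Matrix m n' A =>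
        (fromBlocks 0 M 0 0 : Matrix (m ⊕ n') (m ⊕ n') A) := by fun_prop
      have : RCl V (fromBlocks 0 (Z i) 0 0 : Matrix (m ⊕ n') (m ⊕ n') A) := by
        refine map_mem_closure (f := fun M : Matrix m n' A =>
          (fromBlocks 0 M 0 0 : Matrix (m ⊕ n') (m ⊕ n') A)) hcont2 (hZ i) ?_
        rintro _ ⟨Y, rfl⟩
        refine ⟨fromCols 0 Y, ?_⟩
        change (fromRows U 0 : Matrix (m ⊕ n') n A) * (fromCols 0 Y : Matrix n (m ⊕ n') A) = _
        rw [fromRows_mul_fromCols]; simp
      exact this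
    · have e : star (toC (fromBlocks 0 (Z i) 0 0 : Matrix (m ⊕ n') (m ⊕ n') A))
          * toC (fromBlocks 0 (Z i) 0 0) = toC (fromBlocks 0 0 0 ((Z i)ᴴ * Z i)) := by
        have e0 : (fromBlocks 0 (Z i) 0 0 : Matrix (m ⊕ n') (m ⊕ n') A)ᴴ
            * (fromBlocks 0 (Z i) 0 0 : Matrix (m ⊕ n') (m ⊕ n') A)
            = fromBlocks 0 0 0 ((Z i)ᴴ * Z i) := by
          rw [fromBlocks_conjTranspose, fromBlocks_multiply]; simp
        exact e0
      rw [e]; exact hi'.le
  obtain ⟨Y, hY, hYY⟩ := Pool.Agent.H53.DF.swindle_abs S isClosed_closure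
    (fun s hs z => RCl.mul_right hs (CStarMatrix.ofMatrix.symm z)) (toC a₀) ha hx N
  let f : Fin (N + 2) → Matrix (m ⊕ n') (m ⊕ n') A := fun i => if i.val < N + 1 then a₀ else 0
  have hYf : flat (star Y * Y) = bd f := by
    rw [hYY]
    ext ⟨i, a⟩ ⟨j, b⟩
    have h1 : ∀ s : Finset ℕ, flat (∑ t ∈ s, Pool.Agent.H53.DF.E (Pool.Agent.H53.DF.qq N t)
        (Pool.Agent.H53.DF.qq N t) (toC a₀)) (i, a) (j, b)
        = ∑ t ∈ s, (if Pool.Agent.H53.DF.qq N t = i ∧ Pool.Agent.H53.DF.qq N t = j then a₀ else 0) a b := by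
      intro s
      induction s using Finset.induction_on with
      | empty => rfl
      | insert t s hts ih =>
        rw [Finset.sum_insert hts, Finset.sum_insert hts, ← ih]
        have : ∀ x y : CStarMatrix (Fin (N+2)) (Fin (N+2)) (CStarMatrix (m ⊕ n') (m ⊕ n') A),
          flat (x + y) (i, a) (j, b) = flat x (i, a) (j, b) + flat y (i, a) (j, b) :=
          fun _ _ => rfl
        rw [this]
        have h5 : flat (Pool.Agent.H53.DF.E (Pool.Agent.H53.DF.qq N t)
            (Pool.Agent.H53.DF.qq N t) (toC a₀)) (i, a) (j, b)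
            = (if Pool.Agent.H53.DF.qq N t = i ∧ Pool.Agent.H53.DF.qq N t = j then a₀ else 0)
              a b := by
          change (Pool.Agent.H53.DF.E (Pool.Agent.H53.DF.qq N t)
            (Pool.Agent.H53.DF.qq N t) (toC a₀) i j) a b = _
          rw [Pool.Agent.H53.DF.E_apply]
          split_ifs <;> rfl
        rw [h5]
    rw [h1]
    by_cases hij : i = j
    · subst hij
      by_cases hi : i.val < N + 1
      · have : bd f (i, a) (i, b) = a₀ a b := by
          change (if i = i then (if i.val < N + 1 then a₀ else 0) a b else 0) = _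
          rw [if_pos rfl, if_pos hi]
        rw [this, Finset.sum_eq_single i.val]
        · have : Pool.Agent.H53.DF.qq N i.val = i := by
            apply Fin.ext
            simp [Pool.Agent.H53.DF.qq, Nat.mod_eq_of_lt hi]
          simp [this]
        · intro t ht hti
          have : Pool.Agent.H53.DF.qq N t ≠ i := by
            intro h
            apply hti
            have := congrArg Fin.val h
            simpa [Pool.Agent.H53.DF.qq, Nat.mod_eq_of_lt (Finset.mem_range.mp ht)] using this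
          simp [this]
        · intro h
          exact absurd (Finset.mem_range.mpr hi) h
      · have : bd f (i, a) (i, b) = 0 := by
          change (if i = i then (if i.val < N + 1 then a₀ else 0) a b else 0) = _
          rw [if_pos rfl, if_neg hi]; rfl
        rw [this]
        refine Finset.sum_eq_zero fun t ht => ?_
        have : Pool.Agent.H53.DF.qq N t ≠ i := by
          intro h
          apply hi
          have := congrArg Fin.val h
          rw [← this]
          simp only [Pool.Agent.H53.DF.qq]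
          exact Nat.mod_lt _ (by omega)
        simp [this]
    · have : bd f (i, a) (j, b) = 0 := by simp [bd, hij]
      rw [this]
      refine Finset.sum_eq_zero fun t ht => ?_
      have : ¬ (Pool.Agent.H53.DF.qq N t = i ∧ Pool.Agent.H53.DF.qq N t = j) := by
        rintro ⟨h1, h2⟩
        exact hij (h1.symm.trans h2)
      simp [this]
  have hr1 : r _ _ (flat Y) = r _ _ (bd f) := by
    rw [← h.star_mul (flat Y), flat_star_mul, hYf]
  have hr2 : r _ _ (flat Y) ≤ r _ _ (bd fun _ : Fin (N + 2) => V) :=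
    h.rcl (rcl_flat Y hY)
  have hr3 : r _ _ (bd fun _ : Fin (N + 2) => V) ≤ (N + 2) * r _ _ U := by
    rw [h.toIsWeak.bd]
    simp only [Finset.sum_const, Finset.card_univ, Fintype.card_fin, nsmul_eq_mul]
    push_cast
    have : r _ _ V ≤ r _ _ U := by
      have e : V = (fromRows 1 0 : Matrix (m ⊕ n') m A) * U := by
        rw [fromRows_mul]; simp [V]
      rw [e]; exact h.mono_left _ _
    gcongr
  have hr4 : (N + 1) * r _ _ T ≤ r _ _ (bd f) := by
    rw [h.toIsWeak.bd, Fin.sum_univ_castSucc]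
    have e1 : ∀ i : Fin (N + 1), f i.castSucc = a₀ := by
      intro i
      exact if_pos i.2
    have h2 : r _ _ T ≤ r _ _ a₀ := by
      rw [← h.star_mul T]
      have := h.submatrix_le a₀ (Sum.inr : n' → m ⊕ n') (Sum.inr : n' → m ⊕ n')
      have e : a₀.submatrix (Sum.inr : n' → m ⊕ n') (Sum.inr : n' → m ⊕ n') = Tᴴ * T := by
        ext i j; simp [a₀]
      rwa [e] at this
    simp only [e1, Finset.sum_const, Finset.card_univ, Fintype.card_fin, nsmul_eq_mul]
    push_cast
    have h3 := h.nonneg (f (Fin.last (N + 1)))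
    have h4 : ((N : ℝ) + 1) * r _ _ T ≤ (N + 1) * r _ _ a₀ := by gcongr
    linarith
  linarith

theorem IsCoh.cuntz {r : RkFun A} (h : IsCoh r) {U : Matrix m n A} {T : Matrix m' n' A}
    (hUT : Cz U T) : r m' n' T ≤ r m n U := by
  by_contra hlt
  push Not at hlt
  obtain ⟨N, hN⟩ := exists_nat_gt (r m n U / (r m' n' T - r m n U))
  have hpos : 0 < r m' n' T - r m n U := by linarith
  rw [div_lt_iff₀ hpos] at hN
  have := h.cuntz_aux hUT N
  nlinarith

/-- **Face theorem**: a monotone additive summand of a dimension function is a dimension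
function. -/
theorem dim_of_split {r s : RkFun A} (hr : IsWeak r) (hs : IsWeak s) (h : IsDim (r + s)) :
    IsDim r where
  toIsWeak := hr
  cz hUT := (coh_of_split hr hs h).cuntz hUT

theorem IsDim.add' {r s : RkFun A} (hr : IsDim r) (hs : IsDim s) : IsDim (r + s) where
  nonneg T := add_nonneg (hr.nonneg T) (hs.nonneg T)
  mono X T Y := add_le_add (hr.mono X T Y) (hs.mono X T Y)
  add T U := by
    simp only [Pi.add_apply, hr.add, hs.add]; ring
  cz hUT := add_le_add (hr.cz hUT) (hs.cz hUT)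

/-- the positive part is a dimension function -/
theorem spos_dim {E G : RkFun A} (hE : IsDim E) (hG : IsDim G) : IsDim (Spos (E - G)) := by
  refine dim_of_split (spos_weak hE hG) (sub_spos_weak hE hG) ?_
  rw [add_sub_cancel]; exact hE

theorem sub_spos_dim {E G : RkFun A} (hE : IsDim E) (hG : IsDim G) :
    IsDim (E - Spos (E - G)) := by
  refine dim_of_split (sub_spos_weak hE hG) (spos_weak hE hG) ?_
  rw [sub_add_cancel]; exact hE

/-- **Lattice theorem**: the cone of dimension functions is a lattice in its own order. -/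
theorem lattice {f g : RkFun A} (hf : IsDim f) (hg : IsDim g) :
    (∃ s : RkFun A, IsDim s ∧ IsDim (s - f) ∧ IsDim (s - g) ∧
      ∀ k : RkFun A, IsDim k → IsDim (k - f) → IsDim (k - g) → IsDim (k - s)) ∧
    (∃ i : RkFun A, IsDim i ∧ IsDim (f - i) ∧ IsDim (g - i) ∧
      ∀ k : RkFun A, IsDim k → IsDim (f - k) → IsDim (g - k) → IsDim (i - k)) := by
  refine ⟨⟨g + Spos (f - g), hg.add' (spos_dim hf hg), ?_, ?_, ?_⟩,
    ⟨f - Spos (f - g), sub_spos_dim hf hg, ?_, ?_, ?_⟩⟩
  · have := spos_dim hg hf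
    rw [spos_swap hf hg] at this
    have e : g + Spos (f - g) - f = Spos (f - g) - (f - g) := by abel
    rw [e]; exact this
  · have e : g + Spos (f - g) - g = Spos (f - g) := by abel
    rw [e]; exact spos_dim hf hg
  · intro k _ h1 h2
    have := sub_spos_dim h2 h1
    have e1 : k - g - (k - f) = f - g := by abel
    rw [e1] at this
    have e : k - (g + Spos (f - g)) = k - g - Spos (f - g) := by abel
    rw [e]; exact this
  · have e : f - (f - Spos (f - g)) = Spos (f - g) := by abel
    rw [e]; exact spos_dim hf hg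
  · have := spos_dim hg hf
    rw [spos_swap hf hg] at this
    have e : g - (f - Spos (f - g)) = Spos (f - g) - (f - g) := by abel
    rw [e]; exact this
  · intro k _ h1 h2
    have := sub_spos_dim h1 h2
    have e1 : f - k - (g - k) = f - g := by abel
    rw [e1] at this
    have e : f - Spos (f - g) - k = f - k - Spos (f - g) := by abel
    rw [e]; exact this

end Pool.Agent.H42.BH
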