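import Pool.Agent.H42.BH.Emb

/-!
# Infinite chains of embeddings
-/

open scoped Matrix Topology
open Filter Matrix

namespace Pool.Agent.H42.BH

set_option linter.unusedSectionVars false
set_option linter.style.haveILetI false

variable {A : Type} [CStarAlgebra A]
variable {k l m n p q m' n' k' l' : Type} [Fintype k] [Fintype l] [Fintype m] [Fintype n]
  [Fintype m'] [Fintype n'] [Fintype k'] [Fintype l'] [Fintype p] [Fintype q]

theorem RCl.mul_zero' {U : Matrix m n A} {x : Matrix m p A} (h : RCl U x) {W : Matrix q m A}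
    (hW : W * U = 0) : W * x = 0 := by
  have h1 : RCl (W * U) (W * x) := h.mul_left W
  rw [hW] at h1
  obtain ⟨Y, hY⟩ := h1.exists_seq
  simp only [Matrix.zero_mul] at hY
  exact (tendsto_nhds_unique tendsto_const_nhds hY).symm

/-- one step of the infinite chain -/
theorem step {L : Matrix m n A} {V : Matrix p q A} {L' : Matrix m' n' A} {u : Matrix k n A}
    (hu : uᴴ * u = Lᴴ * L) (h : Emb (ds V L') L) :
    ∃ (x : Matrix k q A) (u' : Matrix k n' A), RCl u x ∧ RCl u u' ∧ xᴴ * x = Vᴴ * V ∧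
      u'ᴴ * u' = L'ᴴ * L' ∧ xᴴ * u' = 0 := by
  obtain ⟨Z, hZ, hZ2⟩ := h
  obtain ⟨Z', hZ', hZ'2⟩ := iso_transport hu hZ
  rw [hZ2, ds_star_mul] at hZ'2
  classical
  have e1 : Z'.toCols₁ = Z' * (fromRows 1 0 : Matrix (q ⊕ n') q A) := by
    conv_rhs => rw [← fromCols_toCols Z']
    rw [fromCols_mul_fromRows]; simp
  have e2 : Z'.toCols₂ = Z' * (fromRows 0 1 : Matrix (q ⊕ n') n' A) := by
    conv_rhs => rw [← fromCols_toCols Z']
    rw [fromCols_mul_fromRows]; simp
  have e3 : Z'ᴴ * Z' = fromBlocks (Z'.toCols₁ᴴ * Z'.toCols₁) (Z'.toCols₁ᴴ * Z'.toCols₂)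
      (Z'.toCols₂ᴴ * Z'.toCols₁) (Z'.toCols₂ᴴ * Z'.toCols₂) := by
    conv_lhs => rw [← fromCols_toCols Z']
    rw [conjTranspose_fromCols_eq_fromRows_conjTranspose, fromRows_mul_fromCols]
  rw [e3, ds, fromBlocks_inj] at hZ'2
  refine ⟨Z'.toCols₁, Z'.toCols₂, ?_, ?_, hZ'2.1, hZ'2.2.2.2, hZ'2.2.1⟩
  · rw [e1]; exact hZ'.mul_right _
  · rw [e2]; exact hZ'.mul_right _

/-- the infinite chain of isometries -/
theorem exists_isometries {B : Matrix m n A} {V : ℕ → Matrix p q A} {L : ℕ → Matrix m' n' A}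
    (h0 : Emb (L 0) B) (hs : ∀ j, Emb (ds (V j) (L (j + 1))) (L j)) :
    ∃ x : ℕ → Matrix m q A, (∀ j, RCl B (x j)) ∧ (∀ j, (x j)ᴴ * x j = (V j)ᴴ * V j) ∧
      ∀ i j, i ≠ j → (x i)ᴴ * x j = 0 := by
  obtain ⟨u0, hu0, hu0'⟩ := h0
  have H : ∀ (j : ℕ) (u : {u : Matrix m n' A // RCl B u ∧ uᴴ * u = (L j)ᴴ * L j}),
      ∃ (x : Matrix m q A) (u' : {u : Matrix m n' A // RCl B u ∧ uᴴ * u = (L (j+1))ᴴ * L (j+1)}),
        RCl u.1 x ∧ RCl u.1 u'.1 ∧ xᴴ * x = (V j)ᴴ * V j ∧ xᴴ * u'.1 = 0 := by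
    intro j u
    obtain ⟨x, u', h1, h2, h3, h4, h5⟩ := step u.2.2 (hs j)
    exact ⟨x, ⟨u', u.2.1.trans h2, h4⟩, h1, h2, h3, h5⟩
  choose X U hX1 hX2 hX3 hX4 using H
  let u : ∀ j : ℕ, {u : Matrix m n' A // RCl B u ∧ uᴴ * u = (L j)ᴴ * L j} := fun j =>
    Nat.rec (motive := fun j => {u : Matrix m n' A // RCl B u ∧ uᴴ * u = (L j)ᴴ * L j})
      ⟨u0, hu0, hu0'⟩ (fun j v => U j v) j
  have hu : ∀ j, u (j + 1) = U j (u j) := fun j => rfl
  have hmono : ∀ i j, i ≤ j → RCl (u i).1 (u j).1 := by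
    intro i j hij
    induction j, hij using Nat.le_induction with
    | base => exact RCl.refl _
    | succ j _ ih => rw [hu]; exact ih.trans (hX2 j (u j))
  have hlt : ∀ i j, i < j → (X i (u i))ᴴ * X j (u j) = 0 := by
    intro i j hij
    have h1 : RCl (u (i + 1)).1 (X j (u j)) := (hmono (i + 1) j hij).trans (hX1 j (u j))
    exact h1.mul_zero' (hX4 i (u i))
  refine ⟨fun j => X j (u j), fun j => (u j).2.1.trans (hX1 j (u j)), fun j => hX3 j (u j), ?_⟩
  intro i j hij
  rcases lt_or_gt_of_ne hij with h | h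
  · exact hlt i j h
  · have := congrArg conjTranspose (hlt j i h)
    simpa using this

theorem star_mul_sum {V : ℕ → Matrix p q A} (hV : ∀ i j, i ≠ j → (V i)ᴴ * V j = 0)
    (s : Finset ℕ) : (∑ i ∈ s, V i)ᴴ * (∑ i ∈ s, V i) = ∑ i ∈ s, (V i)ᴴ * V i := by
  rw [conjTranspose_sum, Matrix.sum_mul]
  refine Finset.sum_congr rfl fun i hi => ?_
  rw [Matrix.mul_sum]
  exact Finset.sum_eq_single_of_mem i hi fun j _ hj => hV i j (Ne.symm hj)

theorem RCl.sum {U : Matrix m n A} {V : ℕ → Matrix m p A} (s : Finset ℕ)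
    (h : ∀ i, RCl U (V i)) : RCl U (∑ i ∈ s, V i) := by
  classical
  induction s using Finset.induction_on with
  | empty => simpa using RCl.zero U
  | insert a s ha ih => rw [Finset.sum_insert ha]; exact (h a).add ih

/-- the limit of the infinite chain -/
theorem infinite_chain {B : Matrix m n A} {V : ℕ → Matrix p q A} {L : ℕ → Matrix m' n' A}
    (h0 : Emb (L 0) B) (hs : ∀ j, Emb (ds (V j) (L (j + 1))) (L j))
    (hV : ∀ i j, i ≠ j → (V i)ᴴ * V j = 0) {W : Matrix p q A}
    (hW : Tendsto (fun i => ∑ j ∈ Finset.range i, V j) atTop (𝓝 W)) : Emb W B := by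
  letI := CStarAlgebra.spectralOrder A
  letI := CStarAlgebra.spectralOrderedRing A
  obtain ⟨x, hx1, hx2, hx3⟩ := exists_isometries h0 hs
  have key : ∀ s : Finset ℕ, (∑ i ∈ s, x i)ᴴ * (∑ i ∈ s, x i) = (∑ i ∈ s, V i)ᴴ * (∑ i ∈ s, V i) := by
    intro s
    rw [star_mul_sum hx3, star_mul_sum hV]
    exact Finset.sum_congr rfl fun i _ => hx2 i
  set X : ℕ → CStarMatrix m q A := fun i => toC (∑ j ∈ Finset.range i, x j) with hX
  set Y : ℕ → CStarMatrix p q A := fun i => toC (∑ j ∈ Finset.range i, V j) with hY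
  have hd : ∀ i j, i ≤ j → dist (X i) (X j) = dist (Y i) (Y j) := by
    intro i j hij
    have e1 : ∀ {r : Type} [Fintype r] (f : ℕ → Matrix r q A),
        dist (toC (∑ a ∈ Finset.range i, f a)) (toC (∑ a ∈ Finset.range j, f a)) ^ 2
          = ‖toC ((∑ a ∈ Finset.Ico i j, f a)ᴴ * (∑ a ∈ Finset.Ico i j, f a))‖ := by
      intro r _ f
      rw [dist_comm, dist_eq_norm, ← norm_sq_toC]
      congr 2
      have := Finset.sum_Ico_eq_sub f hij
      rw [this]
      rfl
    have h2 := e1 x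
    rw [key, ← e1 V] at h2
    exact (sq_eq_sq₀ dist_nonneg dist_nonneg).mp h2
  have hd' : ∀ i j, dist (X i) (X j) = dist (Y i) (Y j) := by
    intro i j
    rcases le_total i j with h | h
    · exact hd i j h
    · rw [dist_comm (X i), dist_comm (Y i)]; exact hd j i h
  have hcY : CauchySeq Y := (show Tendsto Y atTop (𝓝 (toC W)) from hW).cauchySeq
  have hcX : CauchySeq X := by
    rw [Metric.cauchySeq_iff'] at hcY ⊢
    simpa only [hd'] using hcY
  obtain ⟨Z', hZ'⟩ := cauchySeq_tendsto_of_complete hcX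
  have hZ2 : Tendsto (fun i => ∑ j ∈ Finset.range i, x j) atTop
      (𝓝 (CStarMatrix.ofMatrix.symm Z')) := hZ'
  refine ⟨CStarMatrix.ofMatrix.symm Z', RCl.of_tendsto hZ2 fun i => RCl.sum _ hx1, ?_⟩
  have e1 : Tendsto (fun i => (∑ j ∈ Finset.range i, x j)ᴴ * (∑ j ∈ Finset.range i, x j)) atTop
      (𝓝 ((CStarMatrix.ofMatrix.symm Z')ᴴ * (CStarMatrix.ofMatrix.symm Z'))) :=
    ((by fun_prop : Continuous fun M : Matrix m q A => Mᴴ * M).tendsto _).comp hZ2
  have e2 : Tendsto (fun i => (∑ j ∈ Finset.range i, V j)ᴴ * (∑ j ∈ Finset.range i, V j)) atTop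
      (𝓝 (Wᴴ * W)) :=
    ((by fun_prop : Continuous fun M : Matrix p q A => Mᴴ * M).tendsto _).comp hW
  simp only [key] at e1
  exact tendsto_nhds_unique e1 e2

/-- The `(N+1)`-trick. -/
theorem trick {s c y : ℕ → Matrix n n A} {b : Matrix n n A} {Y : Matrix n n A}
    (h0 : RCl b (c 0)) (h1 : ∀ j, Emb (ds (s j) (ds (y j) (c (j + 1)))) b)
    (h2 : ∀ j, Emb b (ds (s j) (c j))) (hy : ∀ i j, i ≠ j → (y i)ᴴ * y j = 0)
    (hY : Tendsto (fun i => ∑ j ∈ Finset.range i, y j) atTop (𝓝 Y)) (N : ℕ) :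
    Emb (nf Y N) (nf b (N + 1)) := by
  refine infinite_chain (V := fun j => nf (y j) N) (L := fun j => ds (nf (c j) N) b)
    ?_ (fun j => chain (h1 j) (h2 j) N) ?_ ?_
  · have s1 : Emb (ds (nf (c 0) N) b) (ds (nf b N) b) :=
      ((Emb.of_rcl h0).nfold N).dsum (Emb.refl b)
    exact s1.trans (Emb.comm _ _)
  · intro i j hij
    rw [nf_star_mul, hy i j hij, nf_zero]
  · have e : (fun i => ∑ j ∈ Finset.range i, nf (y j) N)
        = fun i => nf (∑ j ∈ Finset.range i, y j) N := by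
      funext i; rw [nf_sum]
    rw [e]
    exact ((nf_continuous N).tendsto Y).comp hY

/-- Functions which are monotone for closed one-sided spans. -/
structure IsCoh (r : RkFun A) : Prop extends IsWeak r where
  rcl : ∀ {m n n' : Type} [Fintype m] [Fintype n] [Fintype n'] {U : Matrix m n A}
    {T : Matrix m n' A}, RCl U T → r m n' T ≤ r m n U
  lcl : ∀ {m n m' : Type} [Fintype m] [Fintype n] [Fintype m'] {U : Matrix m n A}
    {T : Matrix m' n A}, LCl U T → r m' n T ≤ r m n U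

/-- A summand of a dimension function is coherent. -/
theorem coh_of_split {r s : RkFun A} (hr : IsWeak r) (hs : IsWeak s) (h : IsDim (r + s)) :
    IsCoh r where
  toIsWeak := hr
  rcl := by
    classical
    intro m n n' _ _ _ U T hUT
    have hcl : RCl U (fromCols U T) := by
      have hcont : Continuous fun M : Matrix m n' A => fromCols U M := by
        refine continuous_matrix fun i j => ?_
        rcases j with j | j
        · exact continuous_const
        · exact Continuous.matrix_elem (A := fun M : Matrix m n' A => M) continuous_id i j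
      refine map_mem_closure hcont hUT ?_
      rintro _ ⟨Y, rfl⟩
      refine ⟨fromCols 1 Y, ?_⟩
      simp [mul_fromCols]
    have h1 := h.cz hcl.cz
    simp only [Pi.add_apply] at h1
    have h2 := hs.left_le_fromCols U T
    have h3 := hr.right_le_fromCols U T
    linarith
  lcl := by
    classical
    intro m n m' _ _ _ U T hUT
    have hcl : LCl U (fromRows U T) := by
      have hcont : Continuous fun M : Matrix m' n A => fromRows U M := by
        refine continuous_matrix fun i j => ?_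
        rcases i with i | i
        · exact continuous_const
        · exact Continuous.matrix_elem (A := fun M : Matrix m' n A => M) continuous_id i j
      refine map_mem_closure hcont hUT ?_
      rintro _ ⟨Y, rfl⟩
      refine ⟨fromRows 1 Y, ?_⟩
      simp [fromRows_mul]
    have h1 := h.cz hcl.cz
    simp only [Pi.add_apply] at h1
    have h2 := hs.left_le_fromRows U T
    have h3 := hr.right_le_fromRows U T
    linarith

namespace IsCoh

variable {r : RkFun A} (h : IsCoh r)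
include h

theorem star_mul (T : Matrix m n A) : r n n (Tᴴ * T) = r m n T :=
  le_antisymm (h.mono_left _ _) (h.lcl (lcl_self T))

theorem emb {T : Matrix m n A} {U : Matrix m' n' A} (hTU : Emb T U) : r m n T ≤ r m' n' U := by
  obtain ⟨Z, hZ, hZ2⟩ := hTU
  rw [← h.star_mul T, ← hZ2, h.star_mul Z]
  exact h.rcl hZ

theorem trick {s c y : ℕ → Matrix n n A} {b : Matrix n n A} {Y : Matrix n n A}
    (h0 : RCl b (c 0)) (h1 : ∀ j, Emb (ds (s j) (ds (y j) (c (j + 1)))) b)
    (h2 : ∀ j, Emb b (ds (s j) (c j))) (hy : ∀ i j, i ≠ j → (y i)ᴴ * y j = 0)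
    (hY : Tendsto (fun i => ∑ j ∈ Finset.range i, y j) atTop (𝓝 Y)) :
    r n n Y ≤ r n n b := by
  have key : ∀ N : ℕ, N * r n n Y ≤ (N + 1) * r n n b := by
    intro N
    have := h.emb (BH.trick h0 h1 h2 hy hY N)
    rw [h.toIsWeak.nfold, h.toIsWeak.nfold] at this
    push_cast at this
    exact this
  by_contra hlt
  push Not at hlt
  obtain ⟨N, hN⟩ := exists_nat_gt (r n n b / (r n n Y - r n n b))
  have hpos : 0 < r n n Y - r n n b := by linarith
  rw [div_lt_iff₀ hpos] at hN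
  have := key N
  nlinarith

end IsCoh

end Pool.Agent.H42.BH
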