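import Pool.Agent.H42.BH.Rank

/-!
# The positive part of a difference of dimension functions
-/

open scoped Matrix Topology
open Filter Matrix

namespace Pool.Agent.H42.BH

set_option linter.unusedSectionVars false
set_option linter.style.haveILetI false

variable {A : Type} [CStarAlgebra A]
variable {k l m n m' n' k' l' : Type} [Fintype k] [Fintype l] [Fintype m] [Fintype n] [Fintype m']
  [Fintype n'] [Fintype k'] [Fintype l']

/-- the basic functional `r [P T, B] - r B` -/
def Fn (r : RkFun A) (T : Matrix m n A) (P : Matrix k m A) (B : Matrix k l A) : ℝ :=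
  r k (n ⊕ l) (fromCols (P * T) B) - r k l B

namespace IsDim

variable {r : RkFun A} (h : IsDim r)
include h

/-- transfer of the functional from `T * Y` to `T` -/
theorem fn_right (T : Matrix m n A) (Y : Matrix n n' A) (P : Matrix k m A) (B : Matrix k l A) :
    Fn r T (fromRows (T * Y)ᴴ (0 : Matrix k m A))
      (fromBlocks ((T * Y)ᴴ * (T * Y)) 0 (P * (T * Y)) B) = Fn r (T * Y) P B := by
  classical
  set c : Matrix m n' A := T * Y with hc
  have hcc : r n' n' (cᴴ * c) = r m n' c := h.star_mul c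
  have h1 : r _ _ (fromBlocks (cᴴ * c) 0 (P * c) B) = r m n' c + r k l B := by
    refine le_antisymm ?_ ?_
    · refine h.blocks_le_of_eq (a := c) (B := B) (fromBlocks cᴴ 0 P 1) ?_
      rw [fromBlocks_multiply]; simp
    · rw [← hcc]; exact h.tri_low _ _ _
  have hM : fromCols ((fromRows cᴴ (0 : Matrix k m A)) * T) (fromBlocks (cᴴ * c) 0 (P * c) B)
      = fromBlocks (cᴴ * T) (fromCols (cᴴ * c) 0) 0 (fromCols (P * c) B) := by
    ext i j
    rcases i with i | i <;> rcases j with j | (j | j) <;> simp [fromRows_mul]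
  have h2 : r _ _ (fromCols ((fromRows cᴴ (0 : Matrix k m A)) * T)
      (fromBlocks (cᴴ * c) 0 (P * c) B)) = r m n' c + r k _ (fromCols (P * c) B) := by
    rw [hM]
    refine le_antisymm ?_ ?_
    · have hr : RCl (cᴴ * c) (cᴴ * T) := by
        have := rcl_self cᴴ
        rw [conjTranspose_conjTranspose] at this
        exact this.mul_right T
      obtain ⟨q, hq⟩ := hr.exists_seq
      have hcl : RCl (fromBlocks (cᴴ * c) 0 0 (fromCols (P * c) B))
          (fromBlocks (cᴴ * T) (fromCols (cᴴ * c) 0) 0 (fromCols (P * c) B)) := by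
        have hcont : Continuous fun M : Matrix n' n A =>
            fromBlocks M (fromCols (cᴴ * c) (0 : Matrix n' l A)) 0 (fromCols (P * c) B) := by
          fun_prop
        have hlim := (hcont.tendsto (cᴴ * T)).comp hq
        refine RCl.of_tendsto hlim fun i => ?_
        have e : fromBlocks (cᴴ * c * q i) (fromCols (cᴴ * c) 0) 0 (fromCols (P * c) B)
            = (fromBlocks (cᴴ * c) 0 0 (fromCols (P * c) B) : Matrix (n' ⊕ k) (n' ⊕ (n' ⊕ l)) A)
              * (fromBlocks (q i) (fromCols 1 (0 : Matrix n' l A)) 0 1 :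
                Matrix (n' ⊕ (n' ⊕ l)) (n ⊕ (n' ⊕ l)) A) := by
          rw [fromBlocks_multiply]
          simp [mul_fromCols]
        change RCl _ (fromBlocks (cᴴ * c * q i) _ _ _)
        rw [e]
        exact RCl.mul _ _
      refine (h.cz hcl.cz).trans ?_
      rw [h.add, hcc]
    · refine le_trans ?_ (h.tri _ _ _)
      have : r m n' c ≤ r n' n (cᴴ * T) := by
        have e : cᴴ * c = cᴴ * T * Y := by rw [Matrix.mul_assoc, ← hc]
        rw [← hcc, e]
        exact h.mono_right _ _
      linarith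
  rw [Fn, Fn, h1, h2]
  ring

theorem fn_right_diff (T : Matrix m n A) (Y : Matrix n n' A) (P : Matrix k m A)
    (B : Matrix k l A) :
    r _ _ (fromCols (P * T) B) + r _ _ (T * Y)
      ≤ r _ _ T + r _ _ (fromCols (P * (T * Y)) B) := by
  classical
  have hM : fromBlocks (-(T * Y)) (fromCols T 0) 0 (fromCols (P * T) B)
      = (fromBlocks (1 : Matrix m m A) 0 P 1 : Matrix (m ⊕ k) (m ⊕ k) A)
        * (fromBlocks T 0 0 (fromCols (P * (T * Y)) B) : Matrix (m ⊕ k) (n ⊕ (n' ⊕ l)) A)
        * (fromBlocks (-Y) (fromCols 1 (0 : Matrix n l A)) (fromRows 1 (0 : Matrix l n' A))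
          (fromBlocks 0 0 0 1) : Matrix (n ⊕ (n' ⊕ l)) (n' ⊕ (n ⊕ l)) A) := by
    rw [fromBlocks_multiply, fromBlocks_multiply]
    congr 1
    · simp
    · ext i j
      rcases j with j | j <;> simp [mul_fromCols]
    · simp [fromCols_mul_fromRows, Matrix.mul_assoc]
    · simp only [Matrix.one_mul, Matrix.mul_zero, add_zero, zero_add]
      rw [fromCols_mul_fromBlocks]
      ext i j
      rcases j with j | j <;> simp [mul_fromCols]
  have h1 := h.tri (-(T * Y)) (fromCols (P * T) B) (fromCols T (0 : Matrix m l A))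
  rw [h.neg] at h1
  have h2 : r _ _ (fromBlocks (-(T * Y)) (fromCols T 0) 0 (fromCols (P * T) B))
      ≤ r _ _ T + r _ _ (fromCols (P * (T * Y)) B) := by
    rw [hM, ← h.add]
    exact h.mono _ _ _
  linarith

/-- the functional for `x * T` built from `(P, B)` -/
theorem fn_left [DecidableEq m'] (x : Matrix m' m A) (T : Matrix m n A) (P : Matrix k m A) (B : Matrix k l A) :
    r _ _ (fromCols ((fromRows (1 : Matrix m' m' A) (0 : Matrix k m' A)) * (x * T))
      (fromBlocks (x * T) 0 (P * T) B)) = r _ _ (x * T) + r _ _ (fromCols (P * T) B) := by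
  classical
  have hM : fromCols ((fromRows (1 : Matrix m' m' A) (0 : Matrix k m' A)) * (x * T))
      (fromBlocks (x * T) 0 (P * T) B)
      = fromBlocks (x * T) (fromCols (x * T) 0) 0 (fromCols (P * T) B) := by
    ext i j
    rcases i with i | i <;> rcases j with j | (j | j) <;> simp [fromRows_mul]
  rw [hM]
  refine le_antisymm ?_ (h.tri _ _ _)
  have e : fromBlocks (x * T) (fromCols (x * T) 0) 0 (fromCols (P * T) B)
      = (fromBlocks (x * T) 0 0 (fromCols (P * T) B) : Matrix (m' ⊕ k) (n ⊕ (n ⊕ l)) A)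
        * (fromBlocks 1 (fromCols 1 (0 : Matrix n l A)) 0 1 :
          Matrix (n ⊕ (n ⊕ l)) (n ⊕ (n ⊕ l)) A) := by
    rw [fromBlocks_multiply]
    simp [mul_fromCols]
  rw [e, ← h.add]
  exact h.mono_right _ _

theorem fn_left_lower (x : Matrix m' m A) (T : Matrix m n A) (P : Matrix k m A)
    (B : Matrix k l A) : r _ _ (x * T) + r _ _ B ≤ r _ _ (fromBlocks (x * T) 0 (P * T) B) :=
  h.tri_low _ _ _

theorem fn_left_upper (x : Matrix m' m A) (T : Matrix m n A) (P : Matrix k m A)
    (B : Matrix k l A) : r _ _ (fromBlocks (x * T) 0 (P * T) B) ≤ r _ _ T + r _ _ B := by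
  classical
  refine h.blocks_le_of_eq (a := T) (B := B) (fromBlocks x 0 P 1) ?_
  rw [fromBlocks_multiply]; simp

/-- complement -/
theorem fn_compl [DecidableEq m] (T : Matrix m n A) (P : Matrix k m A) (B : Matrix k l A) :
    Fn r T (fromRows (1 : Matrix m m A) (0 : Matrix l m A)) (fromRows (T * Tᴴ * Pᴴ) Bᴴ)
      = r _ _ T - Fn r T P B := by
  classical
  have hM : fromCols ((fromRows (1 : Matrix m m A) (0 : Matrix l m A)) * T)
      (fromRows (T * Tᴴ * Pᴴ) Bᴴ) = fromBlocks T (T * Tᴴ * Pᴴ) 0 Bᴴ := by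
    ext i j
    rcases i with i | i <;> rcases j with j | j <;> simp [fromRows_mul]
  have h1 : r _ _ (fromCols ((fromRows (1 : Matrix m m A) (0 : Matrix l m A)) * T)
      (fromRows (T * Tᴴ * Pᴴ) Bᴴ)) = r _ _ T + r _ _ B := by
    rw [hM, ← h.conj B]
    refine le_antisymm ?_ (h.tri _ _ _)
    have e : fromBlocks T (T * Tᴴ * Pᴴ) 0 Bᴴ
        = (fromBlocks T 0 0 Bᴴ : Matrix (m ⊕ l) (n ⊕ k) A)
          * (fromBlocks 1 (Tᴴ * Pᴴ) 0 1 : Matrix (n ⊕ k) (n ⊕ k) A) := by
      rw [fromBlocks_multiply]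
      simp [Matrix.mul_assoc]
    rw [e, ← h.add]
    exact h.mono_right _ _
  have h2 : r _ _ (fromRows (T * Tᴴ * Pᴴ) Bᴴ) = r _ _ (fromCols (P * T) B) := by
    rw [← h.conj (fromRows (T * Tᴴ * Pᴴ) Bᴴ)]
    have e : (fromRows (T * Tᴴ * Pᴴ) Bᴴ)ᴴ = fromCols (P * (T * Tᴴ)) B := by
      rw [conjTranspose_fromRows_eq_fromCols_conjTranspose]
      simp [conjTranspose_mul, Matrix.mul_assoc]
    rw [e]
    refine le_antisymm ?_ ?_
    · have e2 : fromCols (P * (T * Tᴴ)) B = fromCols (P * T) B
          * (fromBlocks Tᴴ 0 0 1 : Matrix (n ⊕ l) (m ⊕ l) A) := by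
        rw [fromCols_mul_fromBlocks]; simp [Matrix.mul_assoc]
      rw [e2]
      exact h.mono_right _ _
    · obtain ⟨y, hy⟩ := (rcl_self T).exists_seq
      have hcont : Continuous fun M : Matrix m n A => fromCols (P * M) B := by
        refine continuous_matrix fun i j => ?_
        rcases j with j | j
        · exact Continuous.matrix_elem (A := fun M : Matrix m n A => P * M) (by fun_prop) i j
        · exact continuous_const
      have hlim := (hcont.tendsto T).comp hy
      have hcl : RCl (fromCols (P * (T * Tᴴ)) B) (fromCols (P * T) B) := by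
        refine RCl.of_tendsto hlim fun i => ?_
        have e3 : fromCols (P * (T * Tᴴ * y i)) B
            = fromCols (P * (T * Tᴴ)) B
              * (fromBlocks (y i) 0 0 1 : Matrix (m ⊕ l) (n ⊕ l) A) := by
          rw [fromCols_mul_fromBlocks]; simp [Matrix.mul_assoc]
        change RCl _ (fromCols (P * (T * Tᴴ * y i)) B)
        rw [e3]
        exact RCl.mul _ _
      exact h.cz hcl.cz
  rw [Fn, Fn, h1, h2]
  ring

end IsDim

end Pool.Agent.H42.BH
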