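import Mathlib

/-!
# Rectangular matrices over a C*-algebra: norm and positivity facts
-/

open scoped Matrix ComplexOrder Topology NNReal InnerProductSpace WithCStarModule
open Filter CStarMatrix

namespace Pool.Agent.H42.BH

noncomputable section

variable {A : Type} [CStarAlgebra A] [PartialOrder A] [StarOrderedRing A]
variable {l m n p : Type} [Fintype l] [Fintype m] [Fintype n] [Fintype p]

/-- Submultiplicativity of the C*-norm for rectangular matrices. -/
theorem norm_mul_rect (M : CStarMatrix l m A) (N : CStarMatrix m n A) :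
    ‖(M * N : CStarMatrix l n A)‖ ≤ ‖M‖ * ‖N‖ := by
  have h : toCLM (M * N : CStarMatrix l n A) = (toCLM N).comp (toCLM M) := by
    ext v i
    exact congrFun (Matrix.vecMul_vecMul (v : l → A) (ofMatrix.symm M) (ofMatrix.symm N)).symm i
  rw [CStarMatrix.norm_def, CStarMatrix.norm_def, CStarMatrix.norm_def, h, mul_comm]
  exact ContinuousLinearMap.opNorm_comp_le _ _

open ContinuousLinearMap CStarModule in
theorem norm_le_sqrt_rect (M : CStarMatrix m n A) :
    ‖M‖ ≤ √‖(M * conjTranspose M : CStarMatrix m m A)‖ := by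
  change ‖toCLM M‖ ≤ _
  rw [opNorm_le_iff (by positivity)]
  intro v
  rw [norm_eq_sqrt_norm_inner_self (A := A), ← inner_toCLM_conjTranspose_right]
  have hc : (toCLM (conjTranspose M)).comp (toCLM M)
      = toCLM (M * conjTranspose M : CStarMatrix m m A) := by
    ext v i
    exact congrFun (Matrix.vecMul_vecMul (v : m → A) (ofMatrix.symm M)
      (ofMatrix.symm (conjTranspose M))) i
  have h₁ : ‖⟪v, (toCLM (conjTranspose M)) ((toCLM M) v)⟫_A‖
      ≤ ‖(M * conjTranspose M : CStarMatrix m m A)‖ * ‖v‖ ^ 2 := calc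
          _ ≤ ‖v‖ * ‖(toCLM (conjTranspose M)) (toCLM M v)‖ := norm_inner_le (C⋆ᵐᵒᵈ(A, m → A))
          _ ≤ ‖v‖ * ‖(toCLM (conjTranspose M)).comp (toCLM M)‖ * ‖v‖ := by
                    rw [mul_assoc]
                    gcongr
                    rw [← ContinuousLinearMap.comp_apply]
                    exact le_opNorm ((toCLM (conjTranspose M)).comp (toCLM M)) v
          _ = ‖(toCLM (conjTranspose M)).comp (toCLM M)‖ * ‖v‖ ^ 2 := by ring
          _ = ‖(M * conjTranspose M : CStarMatrix m m A)‖ * ‖v‖ ^ 2 := by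
                    rw [hc, CStarMatrix.norm_def]
  have h₂ : ‖v‖ = √(‖v‖ ^ 2) := by simp
  rw [h₂, ← Real.sqrt_mul]
  · gcongr
    exact h₁
  positivity

theorem norm_sq_le_rect (M : CStarMatrix m n A) :
    ‖M‖ ^ 2 ≤ ‖(M * conjTranspose M : CStarMatrix m m A)‖ := by
  have := norm_le_sqrt_rect M
  calc ‖M‖ ^ 2 ≤ (√‖(M * conjTranspose M : CStarMatrix m m A)‖) ^ 2 := by gcongr
    _ = _ := Real.sq_sqrt (norm_nonneg _)

theorem norm_le_norm_conjTranspose (M : CStarMatrix m n A) : ‖M‖ ≤ ‖conjTranspose M‖ := by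
  by_contra h
  push Not at h
  have h1 := norm_sq_le_rect M
  have h2 := norm_mul_rect M (conjTranspose M)
  have h0 : 0 < ‖M‖ := lt_of_le_of_lt (norm_nonneg _) h
  nlinarith

omit [PartialOrder A] [StarOrderedRing A] [Fintype m] [Fintype n] in
theorem conjTranspose_conjTranspose_cs (M : CStarMatrix m n A) :
    conjTranspose (conjTranspose M) = M := by
  ext i j
  simp

theorem norm_conjTranspose (M : CStarMatrix m n A) : ‖conjTranspose M‖ = ‖M‖ := by
  refine le_antisymm ?_ (norm_le_norm_conjTranspose M)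
  have := norm_le_norm_conjTranspose (conjTranspose M)
  rwa [conjTranspose_conjTranspose_cs] at this

/-- The C*-identity for rectangular matrices. -/
theorem norm_sq_rect (M : CStarMatrix m n A) :
    ‖M‖ ^ 2 = ‖(conjTranspose M * M : CStarMatrix n n A)‖ := by
  have h1 := norm_sq_le_rect (conjTranspose M)
  rw [norm_conjTranspose, conjTranspose_conjTranspose_cs] at h1
  refine le_antisymm h1 ?_
  have h2 := norm_mul_rect (conjTranspose M) M
  rw [norm_conjTranspose] at h2
  rw [sq]; exact h2

end

end Pool.Agent.H42.BH
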