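import Pool.Agent.H42.BH.Lattice

/-!
# The positive part `S` of a difference of dimension functions is monotone and additive
-/

open scoped Matrix Topology
open Filter Matrix

namespace Pool.Agent.H42.BH

set_option linter.unusedSectionVars false
set_option linter.style.haveILetI false

variable {A : Type} [CStarAlgebra A]
variable {k l m n m' n' k' l' : Type} [Fintype k] [Fintype l] [Fintype m] [Fintype n] [Fintype m']
  [Fintype n'] [Fintype k'] [Fintype l']

/-- the values whose supremum is the positive part of `d` at `T` -/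
def PosSet (d : RkFun A) {m n : Type} [Fintype m] [Fintype n] (T : Matrix m n A) : Set ℝ :=
  {x | ∃ (k l : Type) (_ : Fintype k) (_ : Fintype l) (P : Matrix k m A) (B : Matrix k l A),
    x = Fn d T P B}

/-- the positive part -/
noncomputable def Spos (d : RkFun A) : RkFun A := fun _ _ _ _ T => sSup (PosSet d T)

theorem fn_sub (E G : RkFun A) (T : Matrix m n A) (P : Matrix k m A) (B : Matrix k l A) :
    Fn (E - G) T P B = Fn E T P B - Fn G T P B := by
  simp only [Fn, Pi.sub_apply]; ring

section

variable {E G : RkFun A} (hE : IsDim E) (hG : IsDim G)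

theorem fn_nonneg {r : RkFun A} (h : IsWeak r) (T : Matrix m n A) (P : Matrix k m A)
    (B : Matrix k l A) : 0 ≤ Fn r T P B := by
  have := h.right_le_fromCols (P * T) B
  rw [Fn]; linarith

theorem fn_le {r : RkFun A} (h : IsWeak r) (T : Matrix m n A) (P : Matrix k m A)
    (B : Matrix k l A) : Fn r T P B ≤ r m n T := by
  have h1 := h.fromCols_le (P * T) B
  have h2 := h.mono_left P T
  rw [Fn]; linarith

include hE hG

theorem fn_sub_le (T : Matrix m n A) (P : Matrix k m A) (B : Matrix k l A) :
    Fn (E - G) T P B ≤ E m n T := by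
  rw [fn_sub]
  have := fn_le hE.toIsWeak T P B
  have := fn_nonneg hG.toIsWeak T P B
  linarith

theorem posSet_bdd (T : Matrix m n A) : BddAbove (PosSet (E - G) T) := by
  refine ⟨E m n T, ?_⟩
  rintro _ ⟨k, l, _, _, P, B, rfl⟩
  exact fn_sub_le hE hG T P B

theorem zero_mem (T : Matrix m n A) : (0 : ℝ) ∈ PosSet (E - G) T := by
  refine ⟨Empty, Empty, inferInstance, inferInstance, 0, 0, ?_⟩
  have h1 : ∀ {r : RkFun A}, IsDim r → ∀ {j : Type} [Fintype j] (M : Matrix Empty j A),
      r Empty j M = 0 := by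
    intro r hr j _ M
    have : M = 0 := by ext i; exact i.elim
    rw [this]; exact hr.toIsWeak.zero
  rw [fn_sub, Fn, Fn, h1 hE, h1 hE, h1 hG, h1 hG]
  ring

theorem fn_le_spos (T : Matrix m n A) (P : Matrix k m A) (B : Matrix k l A) :
    Fn (E - G) T P B ≤ Spos (E - G) m n T :=
  le_csSup (posSet_bdd hE hG T) ⟨k, l, inferInstance, inferInstance, P, B, rfl⟩

theorem spos_le_iff (T : Matrix m n A) (c : ℝ)
    (h : ∀ (k l : Type) [Fintype k] [Fintype l] (P : Matrix k m A) (B : Matrix k l A),
      Fn (E - G) T P B ≤ c) : Spos (E - G) m n T ≤ c := by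
  refine csSup_le ⟨0, zero_mem hE hG T⟩ ?_
  rintro _ ⟨k, l, _, _, P, B, rfl⟩
  exact h k l P B

theorem spos_nonneg (T : Matrix m n A) : 0 ≤ Spos (E - G) m n T :=
  le_csSup (posSet_bdd hE hG T) (zero_mem hE hG T)

theorem spos_le (T : Matrix m n A) : Spos (E - G) m n T ≤ E m n T :=
  spos_le_iff hE hG T _ fun _ _ _ _ P B => fn_sub_le hE hG T P B

theorem spos_mono_left (X : Matrix m' m A) (T : Matrix m n A) :
    Spos (E - G) m' n (X * T) ≤ Spos (E - G) m n T := by
  refine spos_le_iff hE hG _ _ fun k l _ _ P B => ?_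
  have : Fn (E - G) (X * T) P B = Fn (E - G) T (P * X) B := by
    simp only [Fn, Matrix.mul_assoc]
  rw [this]
  exact fn_le_spos hE hG T _ _

theorem spos_mono_right (T : Matrix m n A) (Y : Matrix n n' A) :
    Spos (E - G) m n' (T * Y) ≤ Spos (E - G) m n T := by
  refine spos_le_iff hE hG _ _ fun k l _ _ P B => ?_
  rw [fn_sub, ← hE.fn_right T Y P B, ← hG.fn_right T Y P B, ← fn_sub]
  exact fn_le_spos hE hG T _ _

theorem spos_left_diff (X : Matrix m' m A) (T : Matrix m n A) :
    Spos (E - G) m n T - Spos (E - G) m' n (X * T) ≤ E m n T - E m' n (X * T) := by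
  classical
  have key : Spos (E - G) m n T ≤ Spos (E - G) m' n (X * T) + (E m n T - E m' n (X * T)) := by
    refine spos_le_iff hE hG _ _ fun k l _ _ P B => ?_
    have h1 := fn_le_spos hE hG (X * T) (fromRows (1 : Matrix m' m' A) (0 : Matrix k m' A))
      (fromBlocks (X * T) 0 (P * T) B)
    rw [fn_sub, Fn, Fn, hE.fn_left, hG.fn_left] at h1
    have h2 := hE.fn_left_upper X T P B
    have h3 := hG.fn_left_lower X T P B
    rw [fn_sub, Fn, Fn]
    linarith
  linarith

theorem spos_right_diff (T : Matrix m n A) (Y : Matrix n n' A) :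
    Spos (E - G) m n T - Spos (E - G) m n' (T * Y) ≤ E m n T - E m n' (T * Y) := by
  classical
  have key : Spos (E - G) m n T ≤ Spos (E - G) m n' (T * Y) + (E m n T - E m n' (T * Y)) := by
    refine spos_le_iff hE hG _ _ fun k l _ _ P B => ?_
    have h1 := fn_le_spos hE hG (T * Y) P B
    rw [fn_sub, Fn, Fn] at h1 ⊢
    have h2 := hE.fn_right_diff T Y P B
    have h3 : G _ _ (fromCols (P * (T * Y)) B) ≤ G _ _ (fromCols (P * T) B) := by
      have e : fromCols (P * (T * Y)) B = fromCols (P * T) B
          * (fromBlocks Y 0 0 1 : Matrix (n ⊕ l) (n' ⊕ l) A) := by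
        rw [fromCols_mul_fromBlocks]; simp [Matrix.mul_assoc]
      rw [e]; exact hG.mono_right _ _
    linarith
  linarith

/-- decomposition of the functional on a direct sum -/
theorem fn_add_split {r : RkFun A} (h : IsWeak r) (T : Matrix m n A) (T' : Matrix m' n' A)
    (P : Matrix k (m ⊕ m') A) (B : Matrix k l A) :
    Fn r (fromBlocks T 0 0 T') P B
      = Fn r T P.toCols₁ (fromCols (P.toCols₂ * T') B) + Fn r T' P.toCols₂ B := by
  have e1 : P * fromBlocks T 0 0 T' = fromCols (P.toCols₁ * T) (P.toCols₂ * T') := by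
    conv_lhs => rw [← fromCols_toCols P]
    rw [fromCols_mul_fromBlocks]; simp
  have e2 : r _ _ (fromCols (P * fromBlocks T 0 0 T') B)
      = r _ _ (fromCols (P.toCols₁ * T) (fromCols (P.toCols₂ * T') B)) := by
    rw [← h.reindex_eq (fromCols (P.toCols₁ * T) (fromCols (P.toCols₂ * T') B)) (Equiv.refl k)
      (Equiv.sumAssoc n n' l), e1]
    congr 1
    ext i j
    rcases j with (j | j) | j <;> simp
  rw [Fn, Fn, Fn, e2]
  ring

/-- the functional of a block diagonal pair -/
theorem fn_add_diag {r : RkFun A} (h : IsWeak r) (T : Matrix m n A) (T' : Matrix m' n' A)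
    (P : Matrix k m A) (B : Matrix k l A) (P' : Matrix k' m' A) (B' : Matrix k' l' A) :
    Fn r (fromBlocks T 0 0 T') (fromBlocks P 0 0 P') (fromBlocks B 0 0 B')
      = Fn r T P B + Fn r T' P' B' := by
  have e1 : (fromBlocks P 0 0 P' : Matrix (k ⊕ k') (m ⊕ m') A) * fromBlocks T 0 0 T'
      = fromBlocks (P * T) 0 0 (P' * T') := by
    rw [fromBlocks_multiply]; simp
  have e2 : r _ _ (fromCols ((fromBlocks P 0 0 P' : Matrix (k ⊕ k') (m ⊕ m') A)
        * fromBlocks T 0 0 T') (fromBlocks B 0 0 B'))
      = r _ _ (fromBlocks (fromCols (P * T) B) 0 0 (fromCols (P' * T') B')) := by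
    rw [← h.reindex_eq (fromBlocks (fromCols (P * T) B) 0 0 (fromCols (P' * T') B'))
      (Equiv.refl (k ⊕ k')) (Equiv.sumSumSumComm n n' l l'), e1]
    congr 1
    ext i j
    rcases i with i | i <;> rcases j with (j | j) | (j | j) <;> simp
  rw [Fn, Fn, Fn, e2, h.add, h.add]
  ring

theorem spos_add (T : Matrix m n A) (T' : Matrix m' n' A) :
    Spos (E - G) _ _ (fromBlocks T 0 0 T') = Spos (E - G) _ _ T + Spos (E - G) _ _ T' := by
  refine le_antisymm ?_ ?_
  · refine spos_le_iff hE hG _ _ fun k l _ _ P B => ?_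
    rw [fn_sub, fn_add_split hE hG hE.toIsWeak, fn_add_split hE hG hG.toIsWeak]
    have h1 := fn_le_spos hE hG T P.toCols₁ (fromCols (P.toCols₂ * T') B)
    have h2 := fn_le_spos hE hG T' P.toCols₂ B
    rw [fn_sub] at h1 h2
    linarith
  · have h1 : Spos (E - G) _ _ T ≤ Spos (E - G) _ _ (fromBlocks T 0 0 T')
        - Spos (E - G) _ _ T' := by
      refine spos_le_iff hE hG _ _ fun k l _ _ P B => ?_
      have h2 : Spos (E - G) _ _ T' ≤ Spos (E - G) _ _ (fromBlocks T 0 0 T')
          - Fn (E - G) T P B := by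
        refine spos_le_iff hE hG _ _ fun k' l' _ _ P' B' => ?_
        have h3 := fn_le_spos hE hG (fromBlocks T 0 0 T')
          (fromBlocks P 0 0 P' : Matrix (k ⊕ k') (m ⊕ m') A)
          (fromBlocks B 0 0 B' : Matrix (k ⊕ k') (l ⊕ l') A)
        rw [fn_sub, fn_add_diag hE hG hE.toIsWeak, fn_add_diag hE hG hG.toIsWeak] at h3
        rw [fn_sub, fn_sub]
        linarith
      linarith
    linarith

/-- the positive part is monotone and additive -/
theorem spos_weak : IsWeak (Spos (E - G)) where
  nonneg T := spos_nonneg hE hG T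
  mono X T Y := (spos_mono_right hE hG (X * T) Y).trans (spos_mono_left hE hG X T)
  add T U := spos_add hE hG T U

/-- `E` minus the positive part of `E - G` is monotone and additive -/
theorem sub_spos_weak : IsWeak (E - Spos (E - G)) where
  nonneg T := by
    have := spos_le hE hG T
    simpa using this
  mono X T Y := by
    have h1 := spos_left_diff hE hG X T
    have h2 := spos_right_diff hE hG (X * T) Y
    simp only [Pi.sub_apply]
    linarith
  add T U := by
    have h1 := spos_add hE hG T U
    have h2 := hE.add T U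
    simp only [Pi.sub_apply]
    linarith

theorem spos_swap_le (T : Matrix m n A) :
    Spos (G - E) m n T ≤ Spos (E - G) m n T - (E m n T - G m n T) := by
  classical
  refine spos_le_iff hG hE _ _ fun k l _ _ P B => ?_
  have h1 := fn_le_spos hE hG T (fromRows (1 : Matrix m m A) (0 : Matrix l m A))
    (fromRows (T * Tᴴ * Pᴴ) Bᴴ)
  rw [fn_sub, hE.fn_compl, hG.fn_compl] at h1
  rw [fn_sub]
  linarith

end

variable {E G : RkFun A}

theorem spos_swap (hE : IsDim E) (hG : IsDim G) :
    Spos (G - E) = Spos (E - G) - (E - G) := by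
  funext m n _ _ T
  simp only [Pi.sub_apply]
  have h1 := spos_swap_le hE hG T
  have h2 := spos_swap_le hG hE T
  linarith

end Pool.Agent.H42.BH
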