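import Pool.Agent.H42.BH.Cl

/-!
# Monotone additive functions and dimension functions on matrices over a C*-algebra
-/

open scoped Matrix Topology
open Filter Matrix

namespace Pool.Agent.H42.BH

set_option linter.unusedSectionVars false
set_option linter.style.haveILetI false

/-- real functions on all finite matrices over `A` -/
abbrev RkFun (A : Type) := ∀ (m n : Type) [Fintype m] [Fintype n], Matrix m n A → ℝ

variable {A : Type} [CStarAlgebra A]

/-- nonnegative, monotone under multiplication, additive -/
structure IsWeak (r : RkFun A) : Prop where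
  nonneg : ∀ {m n : Type} [Fintype m] [Fintype n] (T : Matrix m n A), 0 ≤ r m n T
  mono : ∀ {m n m' n' : Type} [Fintype m] [Fintype n] [Fintype m'] [Fintype n']
    (X : Matrix m' m A) (T : Matrix m n A) (Y : Matrix n n' A), r m' n' (X * T * Y) ≤ r m n T
  add : ∀ {m n m' n' : Type} [Fintype m] [Fintype n] [Fintype m'] [Fintype n']
    (T : Matrix m n A) (U : Matrix m' n' A),
    r (m ⊕ m') (n ⊕ n') (fromBlocks T 0 0 U) = r m n T + r m' n' U

/-- dimension functions: moreover closed under limits -/
structure IsDim (r : RkFun A) : Prop extends IsWeak r where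
  cz : ∀ {m n m' n' : Type} [Fintype m] [Fintype n] [Fintype m'] [Fintype n']
    {T : Matrix m n A} {U : Matrix m' n' A}, Cz T U → r m' n' U ≤ r m n T

namespace IsWeak

variable {r : RkFun A} (h : IsWeak r)
variable {l m n m' n' n'' m'' : Type} [Fintype l] [Fintype m] [Fintype n] [Fintype m'] [Fintype n']
  [Fintype n''] [Fintype m'']
include h

theorem mono_left (X : Matrix m' m A) (T : Matrix m n A) : r m' n (X * T) ≤ r m n T := by
  classical
  have := h.mono X T (1 : Matrix n n A)
  rwa [Matrix.mul_one] at this

theorem mono_right (T : Matrix m n A) (Y : Matrix n n' A) : r m n' (T * Y) ≤ r m n T := by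
  classical
  have := h.mono (1 : Matrix m m A) T Y
  rwa [Matrix.one_mul] at this

theorem submatrix_le (T : Matrix m n A) (f : m' → m) (g : n' → n) :
    r m' n' (T.submatrix f g) ≤ r m n T := by
  classical
  have : T.submatrix f g
      = ((1 : Matrix m m A).submatrix f id) * T * ((1 : Matrix n n A).submatrix id g) := by
    ext i j
    simp [Matrix.mul_apply, Matrix.one_apply]
  rw [this]
  exact h.mono _ _ _

theorem reindex_eq (T : Matrix m n A) (f : m' ≃ m) (g : n' ≃ n) :
    r m' n' (T.submatrix f g) = r m n T := by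
  refine le_antisymm (h.submatrix_le T f g) ?_
  have := h.submatrix_le (T.submatrix f g) f.symm g.symm
  simpa using this

theorem zero : r m n (0 : Matrix m n A) = 0 := by
  have h1 := h.add (0 : Matrix m n A) (0 : Matrix m n A)
  have h2 := h.submatrix_le (0 : Matrix m n A) (Sum.elim id id : m ⊕ m → m)
    (Sum.elim id id : n ⊕ n → n)
  have e : (0 : Matrix m n A).submatrix (Sum.elim id id : m ⊕ m → m) (Sum.elim id id : n ⊕ n → n)
      = fromBlocks 0 0 0 0 := by
    ext i j; simp
  rw [e] at h2
  have := h.nonneg (0 : Matrix m n A)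
  linarith

theorem neg_le (T : Matrix m n A) : r m n (-T) ≤ r m n T := by
  classical
  have := h.mono_left (-1 : Matrix m m A) T
  simpa using this

theorem neg (T : Matrix m n A) : r m n (-T) = r m n T := by
  refine le_antisymm (h.neg_le T) ?_
  have := h.neg_le (-T)
  simpa using this

theorem left_le_fromCols (T : Matrix m n A) (U : Matrix m n' A) :
    r m n T ≤ r m (n ⊕ n') (fromCols T U) := by
  have := h.submatrix_le (fromCols T U) (id : m → m) (Sum.inl : n → n ⊕ n')
  have e : (fromCols T U).submatrix (id : m → m) (Sum.inl : n → n ⊕ n') = T := by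
    ext i j; simp
  rwa [e] at this

theorem right_le_fromCols (T : Matrix m n A) (U : Matrix m n' A) :
    r m n' U ≤ r m (n ⊕ n') (fromCols T U) := by
  have := h.submatrix_le (fromCols T U) (id : m → m) (Sum.inr : n' → n ⊕ n')
  have e : (fromCols T U).submatrix (id : m → m) (Sum.inr : n' → n ⊕ n') = U := by
    ext i j; simp
  rwa [e] at this

theorem left_le_fromRows (T : Matrix m n A) (U : Matrix m' n A) :
    r m n T ≤ r (m ⊕ m') n (fromRows T U) := by
  have := h.submatrix_le (fromRows T U) (Sum.inl : m → m ⊕ m') (id : n → n)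
  have e : (fromRows T U).submatrix (Sum.inl : m → m ⊕ m') (id : n → n) = T := by
    ext i j; simp
  rwa [e] at this

theorem right_le_fromRows (T : Matrix m n A) (U : Matrix m' n A) :
    r m' n U ≤ r (m ⊕ m') n (fromRows T U) := by
  have := h.submatrix_le (fromRows T U) (Sum.inr : m' → m ⊕ m') (id : n → n)
  have e : (fromRows T U).submatrix (Sum.inr : m' → m ⊕ m') (id : n → n) = U := by
    ext i j; simp
  rwa [e] at this

theorem fromCols_le (T : Matrix m n A) (U : Matrix m n' A) :
    r m (n ⊕ n') (fromCols T U) ≤ r m n T + r m n' U := by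
  classical
  have e : fromCols T U = (fromCols 1 1 : Matrix m (m ⊕ m) A) * fromBlocks T 0 0 U := by
    rw [fromCols_mul_fromBlocks]; simp
  rw [e, ← h.add]
  exact h.mono_left _ _

/-- lower triangular products: `[[xa, 0],[A a, B]]` is a left multiple of `diag(a, B)` -/
theorem blocks_le_of_eq {M : Matrix (m ⊕ m') (n ⊕ n') A} {a : Matrix l n A} {B : Matrix m'' n' A}
    (X : Matrix (m ⊕ m') (l ⊕ m'') A) (hM : M = X * fromBlocks a 0 0 B) :
    r _ _ M ≤ r _ _ a + r _ _ B := by
  rw [hM, ← h.add]; exact h.mono_left _ _

end IsWeak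

namespace IsDim

variable {r : RkFun A} (h : IsDim r)
variable {l m n m' n' n'' : Type} [Fintype l] [Fintype m] [Fintype n] [Fintype m'] [Fintype n']
  [Fintype n'']
include h

theorem star_mul (T : Matrix m n A) : r n n (Tᴴ * T) = r m n T := by
  refine le_antisymm (h.mono_left _ _) (h.cz (lcl_self T).cz)

theorem mul_star (T : Matrix m n A) : r m m (T * Tᴴ) = r m n T := by
  refine le_antisymm (h.mono_right _ _) (h.cz (rcl_self T).cz)

theorem conj (T : Matrix m n A) : r n m Tᴴ = r m n T := by
  rw [← h.star_mul T, ← h.mul_star Tᴴ, conjTranspose_conjTranspose]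

/-- the Sylvester inequality for block upper triangular matrices -/
theorem tri (a : Matrix m n A) (b : Matrix m' n' A) (c : Matrix m n' A) :
    r m n a + r m' n' b ≤ r (m ⊕ m') (n ⊕ n') (fromBlocks a c 0 b) := by
  classical
  set t : Matrix m m A := a * aᴴ with ht
  have h1 : RCl (t * a) a := by
    have e := (rcl_self aᴴ).mul_left a
    rw [conjTranspose_conjTranspose, ← Matrix.mul_assoc] at e
    exact e.trans (rcl_self a)
  have h2 : RCl (t * a) (t * c) := by
    rw [ht, Matrix.mul_assoc a aᴴ c]
    exact h1.mul_right _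
  obtain ⟨w, hw⟩ := h2.exists_seq
  have hcz : Cz (fromBlocks a c 0 b) (fromBlocks (t * a) 0 0 b) := by
    have hlim : Tendsto (fun i => fromBlocks (t * a) (t * c - t * a * w i) 0 b) atTop
        (𝓝 (fromBlocks (t * a) 0 0 b)) := by
      have hc : Continuous fun M : Matrix m n' A => fromBlocks (t * a) (t * c - M)
          (0 : Matrix m' n A) b := by fun_prop
      have := (hc.tendsto (t * c)).comp hw
      rw [sub_self] at this
      exact this
    refine isClosed_closure.mem_of_tendsto hlim (Eventually.of_forall fun i => subset_closure ?_)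
    refine ⟨fromBlocks t 0 0 1, fromBlocks 1 (-w i) 0 1, ?_⟩
    rw [fromBlocks_multiply, fromBlocks_multiply]
    simp [sub_eq_neg_add]
  calc r m n a + r m' n' b ≤ r m n (t * a) + r m' n' b := by
        have := h.cz h1.cz; linarith
    _ = r _ _ (fromBlocks (t * a) 0 0 b) := (h.add _ _).symm
    _ ≤ _ := h.cz hcz

theorem tri_low (a : Matrix m n A) (b : Matrix m' n' A) (c : Matrix m' n A) :
    r m n a + r m' n' b ≤ r (m ⊕ m') (n ⊕ n') (fromBlocks a 0 c b) := by
  have h1 := h.tri b a c
  have h2 := h.reindex_eq (fromBlocks a 0 c b) (Equiv.sumComm m' m) (Equiv.sumComm n' n)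
  have e : (fromBlocks a 0 c b).submatrix (Equiv.sumComm m' m) (Equiv.sumComm n' n)
      = fromBlocks b c 0 a := by
    ext i j
    rcases i with i | i <;> rcases j with j | j <;> simp
  rw [e] at h2
  linarith

end IsDim

end Pool.Agent.H42.BH
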